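import Mathlib

/-!
Groupwise maximin shares for additive valuations. Agents are `Fin n`, goods are `Fin m`,
`v i g` is the value of good `g` for agent `i`, and an allocation sends each good to its owner.
-/

namespace Pool.Agent.Lib.MP_7939ee_co

open Finset

/-- The bundle of agent `i` in the allocation `A`. -/
def bundle {n m : ℕ} (A : Fin m → Fin n) (i : Fin n) : Finset (Fin m) :=
  univ.filter fun g => A g = i

/-- The maximin share for the set `T` of goods among `k` bundles: the maximum, over all ways `B`
of placing the goods into `k` possibly empty parts, of the least value of a part of `T`. -/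
noncomputable def mms {m : ℕ} (w : Fin m → ℝ) (k : ℕ) (T : Finset (Fin m)) : ℝ :=
  ⨆ B : Fin m → Fin k, ⨅ j : Fin k, ∑ g ∈ T.filter fun g => B g = j, w g

/-- The groupwise maximin share of agent `i`: the maximum over groups `S` containing `i` of the
maximin share of `i` for the union of the bundles of `S` among `|S|` bundles. -/
noncomputable def gmms {n m : ℕ} (v : Fin n → Fin m → ℝ) (A : Fin m → Fin n) (i : Fin n) : ℝ :=
  ⨆ S : {S : Finset (Fin n) // i ∈ S}, mms (v i) S.1.card (S.1.biUnion (bundle A))

/-- The allocation `A` is `α`-GMMS. -/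
def IsGMMS {n m : ℕ} (α : ℝ) (v : Fin n → Fin m → ℝ) (A : Fin m → Fin n) : Prop :=
  ∀ i, α * gmms v A i ≤ ∑ g ∈ bundle A i, v i g

end Pool.Agent.Lib.MP_7939ee_co
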