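import Mathlib

/-!
The drafting phase: first goods (with stealing) and second goods (in reverse order).
-/

namespace Pool.Agent.Lib.MP_7939ee_co

open Finset

variable {ι G : Type*} [Fintype ι] [DecidableEq ι] [Fintype G] [DecidableEq G]

/-- A state of the first round: `L` holds the agents that keep a single good, `R` the other
agents that hold a good, `f` the goods held and `t` the times at which they were picked. -/
structure FirstRound (ρ : ℝ) (v : ι → G → ℝ) (L R : Finset ι) (f : ι → G) (t : ι → ℕ) : Prop where
  disj : Disjoint L R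
  inj : Set.InjOn f (L ∪ R : Finset ι)
  freeL : ∀ i ∈ L, ∀ g, g ∉ (L ∪ R).image f → ρ * v i g ≤ v i (f i)
  heldL : ∀ i ∈ L, ∀ j ∈ R, v i (f j) ≤ v i (f i)
  freeR : ∀ i ∈ R, ∀ g, g ∉ (L ∪ R).image f → v i g ≤ v i (f i)
  later : ∀ i ∈ R, ∀ j ∈ R, t i ≤ t j → v i (f j) ≤ v i (f i)
  heldR : ∀ i ∈ R, ∀ j ∈ R, v i (f j) ≤ ρ * v i (f i)

theorem exists_firstRound {ρ : ℝ} (hρ : 1 ≤ ρ) (v : ι → G → ℝ) (hv : ∀ i g, 0 ≤ v i g)
    [Nonempty G] (hcard : Fintype.card ι ≤ Fintype.card G) :
    ∃ L R f t, FirstRound ρ v L R f t ∧ ∀ i, i ∈ L ∨ i ∈ R := by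
  classical
  let good : Finset ι × Finset ι → Prop := fun q => ∃ f t, FirstRound ρ v q.1 q.2 f t
  have hne : (univ.filter good).Nonempty :=
    ⟨(∅, ∅), mem_filter.2 ⟨mem_univ _, fun _ => Classical.arbitrary G, fun _ => 0, by
      constructor <;> simp⟩⟩
  obtain ⟨⟨L, R⟩, hq, hmax⟩ := exists_max_image _ (fun q => 2 * q.1.card + q.2.card) hne
  obtain ⟨f, t, h⟩ := (mem_filter.1 hq).2
  refine ⟨L, R, f, t, h, fun a => ?_⟩
  by_contra ha
  push Not at ha
  obtain ⟨haL, haR⟩ := ha
  dsimp only at h hmax
  have haD : a ∉ L ∪ R := by simp [haL, haR]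
  have hfree : (univ \ (L ∪ R).image f).Nonempty := by
    rw [← card_pos, card_univ_sdiff]
    have h1 : ((L ∪ R).image f).card ≤ (L ∪ R).card := card_image_le
    have h2 : (L ∪ R).card < Fintype.card ι :=
      card_lt_univ_of_notMem haD
    omega
  obtain ⟨c, hc, hcmax⟩ := exists_max_image _ (v a) hfree
  have hc' : c ∉ (L ∪ R).image f := (mem_sdiff.1 hc).2
  have hcmax' : ∀ g, g ∉ (L ∪ R).image f → v a g ≤ v a c := fun g hg =>
    hcmax g (mem_sdiff.2 ⟨mem_univ _, hg⟩)
  by_cases hst : ∀ j ∈ R, v a (f j) ≤ ρ * v a c
  · -- the new agent takes its best free good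
    have hup : ∀ i ∈ L ∪ R, Function.update f a c i = f i := fun i hi =>
      Function.update_of_ne (ne_of_mem_of_not_mem hi haD) _ _
    have hL : ∀ i ∈ L, Function.update f a c i = f i := fun i hi => hup i (mem_union_left _ hi)
    have hR : ∀ i ∈ R, Function.update f a c i = f i := fun i hi => hup i (mem_union_right _ hi)
    have hsub : ∀ g, g ∉ (L ∪ insert a R).image (Function.update f a c) →
        g ∉ (L ∪ R).image f := by
      intro g hg hg'
      obtain ⟨i, hi, rfl⟩ := mem_image.1 hg'
      refine hg (mem_image.2 ⟨i, ?_, hup i hi⟩)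
      rcases mem_union.1 hi with hi | hi
      · exact mem_union_left _ hi
      · exact mem_union_right _ (mem_insert_of_mem hi)
    have ht : ∀ i ∈ R, Function.update t a (R.sup t + 1) i = t i := fun i hi =>
      Function.update_of_ne (ne_of_mem_of_not_mem hi haR) _ _
    have hnew : FirstRound ρ v L (insert a R) (Function.update f a c)
        (Function.update t a (R.sup t + 1)) := by
      refine ⟨?_, ?_, ?_, ?_, ?_, ?_, ?_⟩
      · exact disjoint_insert_right.2 ⟨haL, h.disj⟩
      · rw [union_insert, coe_insert]
        refine (Set.injOn_insert (by exact_mod_cast haD)).2 ⟨?_, ?_⟩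
        · exact h.inj.congr fun i hi => (hup i (by exact_mod_cast hi)).symm
        · rintro ⟨i, hi, e⟩
          have hi' : i ∈ L ∪ R := by exact_mod_cast hi
          rw [hup i hi', Function.update_self] at e
          exact hc' (mem_image.2 ⟨i, hi', e⟩)
      · intro i hi g hg
        rw [hL i hi]
        exact h.freeL i hi g (hsub g hg)
      · intro i hi j hj
        rw [hL i hi]
        rcases mem_insert.1 hj with rfl | hj
        · rw [Function.update_self]
          have h1 := h.freeL i hi c hc'
          nlinarith [hv i c]
        · rw [hR j hj]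
          exact h.heldL i hi j hj
      · intro i hi g hg
        rcases mem_insert.1 hi with rfl | hi
        · rw [Function.update_self]
          exact hcmax' g (hsub g hg)
        · rw [hR i hi]
          exact h.freeR i hi g (hsub g hg)
      · intro i hi j hj hij
        rcases mem_insert.1 hi with hi | hi <;> rcases mem_insert.1 hj with hj | hj
        · rw [hi, hj]
        · rw [hi, Function.update_self, ht j hj] at hij
          have := le_sup (f := t) hj
          omega
        · rw [hj, Function.update_self, hR i hi]
          exact h.freeR i hi c hc'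
        · rw [ht i hi, ht j hj] at hij
          rw [hR i hi, hR j hj]
          exact h.later i hi j hj hij
      · intro i hi j hj
        rcases mem_insert.1 hi with hi | hi <;> rcases mem_insert.1 hj with hj | hj
        · rw [hi, hj]
          nlinarith [hv a (Function.update f a c a)]
        · rw [hi, Function.update_self, hR j hj]
          exact hst j hj
        · rw [hj, Function.update_self, hR i hi]
          have h1 := h.freeR i hi c hc'
          nlinarith [hv i (f i)]
        · rw [hR i hi, hR j hj]
          exact h.heldR i hi j hj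
    have := hmax (L, insert a R) (mem_filter.2 ⟨mem_univ _, _, _, hnew⟩)
    simp only [card_insert_of_notMem haR] at this
    omega
  · -- the new agent steals the best good held in `R`
    push Not at hst
    obtain ⟨j₀, hj₀, hj₀'⟩ := hst
    obtain ⟨b, hb, hbmax⟩ := exists_max_image R (fun j => v a (f j)) ⟨j₀, hj₀⟩
    have hbL : b ∉ L := fun hb' => disjoint_left.1 h.disj hb' hb
    have hup : ∀ i ∈ L ∪ R, Function.update f a (f b) i = f i := fun i hi =>
      Function.update_of_ne (ne_of_mem_of_not_mem hi haD) _ _
    have hL : ∀ i ∈ L, Function.update f a (f b) i = f i := fun i hi =>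
      hup i (mem_union_left _ hi)
    have hR : ∀ i ∈ R.erase b, Function.update f a (f b) i = f i := fun i hi =>
      hup i (mem_union_right _ (mem_of_mem_erase hi))
    have hsub : ∀ g, g ∉ (insert a L ∪ R.erase b).image (Function.update f a (f b)) →
        g ∉ (L ∪ R).image f := by
      intro g hg hg'
      obtain ⟨i, hi, rfl⟩ := mem_image.1 hg'
      by_cases hib : i = b
      · exact hg (mem_image.2 ⟨a, by simp, by rw [Function.update_self, hib]⟩)
      refine hg (mem_image.2 ⟨i, ?_, hup i hi⟩)
      rcases mem_union.1 hi with hi | hi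
      · exact mem_union_left _ (mem_insert_of_mem hi)
      · exact mem_union_right _ (mem_erase.2 ⟨hib, hi⟩)
    have hnew : FirstRound ρ v (insert a L) (R.erase b) (Function.update f a (f b)) t := by
      refine ⟨?_, ?_, ?_, ?_, ?_, ?_, ?_⟩
      · exact disjoint_insert_left.2 ⟨fun h' => haR (mem_of_mem_erase h'),
          h.disj.mono_right (erase_subset _ _)⟩
      · have hs : L ∪ R.erase b ⊆ L ∪ R := union_subset_union_right (erase_subset _ _)
        rw [insert_union, coe_insert]
        refine (Set.injOn_insert (by exact_mod_cast fun h' => haD (hs h'))).2 ⟨?_, ?_⟩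
        · exact (h.inj.mono (by exact_mod_cast hs)).congr fun i hi =>
            (hup i (hs (by exact_mod_cast hi))).symm
        · rintro ⟨i, hi, e⟩
          have hi' : i ∈ L ∪ R.erase b := by exact_mod_cast hi
          rw [hup i (hs hi'), Function.update_self] at e
          have : i = b := h.inj (by exact_mod_cast hs hi')
            (by exact_mod_cast mem_union_right L hb) e
          subst this
          simp [hbL] at hi'
      · intro i hi g hg
        rcases mem_insert.1 hi with rfl | hi
        · rw [Function.update_self]
          have h1 := hcmax' g (hsub g hg)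
          have h2 := hbmax j₀ hj₀
          nlinarith
        · rw [hL i hi]
          exact h.freeL i hi g (hsub g hg)
      · intro i hi j hj
        rw [hR j hj]
        rcases mem_insert.1 hi with rfl | hi
        · rw [Function.update_self]
          exact hbmax j (mem_of_mem_erase hj)
        · rw [hL i hi]
          exact h.heldL i hi j (mem_of_mem_erase hj)
      · intro i hi g hg
        rw [hR i hi]
        exact h.freeR i (mem_of_mem_erase hi) g (hsub g hg)
      · intro i hi j hj hij
        rw [hR i hi, hR j hj]
        exact h.later i (mem_of_mem_erase hi) j (mem_of_mem_erase hj) hij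
      · intro i hi j hj
        rw [hR i hi, hR j hj]
        exact h.heldR i (mem_of_mem_erase hi) j (mem_of_mem_erase hj)
    have := hmax (insert a L, R.erase b) (mem_filter.2 ⟨mem_univ _, _, _, hnew⟩)
    simp only [card_insert_of_notMem haL, card_erase_of_mem hb] at this
    have := card_pos.2 ⟨b, hb⟩
    omega

omit [Fintype ι] [Fintype G] in
/-- Serial dictatorship in decreasing order of `t`. -/
theorem exists_serial (v : ι → G → ℝ) (t : ι → ℕ) [Nonempty G] (U : Finset G) (Z : Finset ι)
    (hcard : Z.card ≤ U.card) :
    ∃ s : ι → G, Set.InjOn s Z ∧ (∀ i ∈ Z, s i ∈ U) ∧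
      ∀ i ∈ Z, ∀ g ∈ U, (∀ j ∈ Z, t i ≤ t j → j ≠ i → s j ≠ g) → v i g ≤ v i (s i) := by
  induction Z using Finset.induction_on_min_value t with
  | empty => exact ⟨fun _ => Classical.arbitrary G, by simp, by simp, by simp⟩
  | insert a Z ha hmin ih =>
    rw [card_insert_of_notMem ha] at hcard
    obtain ⟨s, h1, h2, h3⟩ := ih (by omega)
    have hfree : (U \ Z.image s).Nonempty := by
      rw [← card_pos]
      have := le_card_sdiff (Z.image s) U
      have : (Z.image s).card ≤ Z.card := card_image_le
      omega
    obtain ⟨c, hc, hcmax⟩ := exists_max_image _ (v a) hfree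
    have hup : ∀ i ∈ Z, Function.update s a c i = s i := fun i hi =>
      Function.update_of_ne (ne_of_mem_of_not_mem hi ha) _ _
    refine ⟨Function.update s a c, ?_, ?_, ?_⟩
    · rw [coe_insert]
      refine (Set.injOn_insert (by exact_mod_cast ha)).2 ⟨?_, ?_⟩
      · exact h1.congr fun i hi => (hup i (by exact_mod_cast hi)).symm
      · rintro ⟨i, hi, e⟩
        have hi' : i ∈ Z := by exact_mod_cast hi
        rw [hup i hi', Function.update_self] at e
        exact (mem_sdiff.1 hc).2 (mem_image.2 ⟨i, hi', e⟩)
    · intro i hi
      rcases mem_insert.1 hi with rfl | hi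
      · rw [Function.update_self]
        exact (mem_sdiff.1 hc).1
      · rw [hup i hi]
        exact h2 i hi
    · intro i hi g hg hj
      rcases mem_insert.1 hi with rfl | hi
      · rw [Function.update_self]
        refine hcmax g (mem_sdiff.2 ⟨hg, fun h' => ?_⟩)
        obtain ⟨j, hj', e⟩ := mem_image.1 h'
        exact hj j (mem_insert_of_mem hj') (hmin j hj') (fun e' => ha (e' ▸ hj'))
          (by rw [hup j hj', e])
      · rw [hup i hi]
        refine h3 i hi g hg fun j hj' htj hji => ?_
        rw [← hup j hj']
        exact hj j (mem_insert_of_mem hj') htj hji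

end Pool.Agent.Lib.MP_7939ee_co
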