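import Mathlib

/-!
Integer price equilibria in which every agent holds one good at its price or two goods of price
zero, chosen so that no agent has two valuable unallocated goods.
-/

namespace Pool.Agent.Lib.MP_7939ee_co

open Finset

variable {ι G : Type*} [Fintype ι] [DecidableEq ι] [Fintype G] [DecidableEq G]

/-- An agent with scaled values `u` holds one good at its price, or two goods of price zero
that it values at least `κ`. -/
def Holds (κ : ℤ) (u q : G → ℤ) (B : Finset G) : Prop :=
  (∃ g, B = {g} ∧ u g = q g) ∨ (B.card = 2 ∧ ∀ g ∈ B, q g = 0 ∧ κ ≤ u g)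

/-- A price equilibrium for the agents in `A`. -/
structure Feas (a : ι → G → ℤ) (κ : ℤ) (π : ι → ℤ) (q : G → ℤ) (A : Finset ι)
    (X : ι → Finset G) : Prop where
  le : ∀ i g, π i + a i g ≤ q g
  nonneg : ∀ g, 0 ≤ q g
  disj : ∀ i ∈ A, ∀ j ∈ A, i ≠ j → Disjoint (X i) (X j)
  holds : ∀ i ∈ A, Holds κ (fun g => π i + a i g) q (X i)
  free : ∀ g, (∀ i ∈ A, g ∉ X i) → q g = 0

variable {a : ι → G → ℤ} {κ : ℤ} {π : ι → ℤ} {q : G → ℤ}

omit [Fintype ι] [Fintype G] [DecidableEq G] in
/-- Filling the hole at `j` with a bundle that nobody holds. -/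
theorem Feas.fill {A : Finset ι} {Y : ι → Finset G} {j : ι} (h : Feas a κ π q (A.erase j) Y)
    {B : Finset G} (hB : ∀ g ∈ B, ∀ i ∈ A.erase j, g ∉ Y i) {π' : ι → ℤ}
    (h1 : ∀ i, i ≠ j → π' i = π i) (h2 : π' j ≤ π j) (h3 : Holds κ (fun g => π' j + a j g) q B) :
    Feas a κ π' q A (Function.update Y j B) := by
  have hup : ∀ i, i ≠ j → Function.update Y j B i = Y i := fun i hi =>
    Function.update_of_ne hi _ _
  refine ⟨fun i g => ?_, h.nonneg, fun i hi l hl hil => ?_, fun i hi => ?_, fun g hg => ?_⟩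
  · have := h.le i g
    by_cases hi : i = j
    · subst hi; omega
    · rw [h1 i hi]; exact this
  · by_cases hij : i = j <;> by_cases hlj : l = j
    · exact absurd (hij.trans hlj.symm) hil
    · rw [hij, Function.update_self, hup l hlj]
      exact disjoint_left.2 fun g hg => hB g hg l (mem_erase.2 ⟨hlj, hl⟩)
    · rw [hlj, Function.update_self, hup i hij]
      exact disjoint_right.2 fun g hg => hB g hg i (mem_erase.2 ⟨hij, hi⟩)
    · rw [hup i hij, hup l hlj]
      exact h.disj i (mem_erase.2 ⟨hij, hi⟩) l (mem_erase.2 ⟨hlj, hl⟩) hil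
  · by_cases hij : i = j
    · rw [hij, Function.update_self]; exact h3
    · rw [hup i hij, h1 i hij]; exact h.holds i (mem_erase.2 ⟨hij, hi⟩)
  · refine h.free g fun i hi => ?_
    rw [← hup i (mem_erase.1 hi).1]
    exact hg i (mem_erase.1 hi).2

omit [Fintype G] [DecidableEq G] in
/-- The agents to which a hole can be moved along tight edges. -/
theorem grow (A : Finset ι) (X : ι → Finset G) (W₀ : Finset ι) (h₀ : W₀ ⊆ A)
    (hW₀ : ∀ j ∈ W₀, Feas a κ π q (A.erase j) X) :
    ∃ W, W₀ ⊆ W ∧ W ⊆ A ∧ (∀ j ∈ W, ∃ Y, Feas a κ π q (A.erase j) Y ∧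
        ∀ g, (∀ i ∈ A, g ∉ X i) → ∀ i ∈ A.erase j, g ∉ Y i) ∧
      ∀ i ∈ W, ∀ k ∈ A, k ∉ W → ∀ g, X k = {g} → π i + a i g ≠ q g := by
  classical
  let good : Finset ι → Prop := fun W => W₀ ⊆ W ∧ W ⊆ A ∧ ∀ j ∈ W, ∃ Y,
    Feas a κ π q (A.erase j) Y ∧ (∀ k, k ∉ W → Y k = X k) ∧
      ∀ g, (∀ i ∈ A, g ∉ X i) → ∀ i ∈ A.erase j, g ∉ Y i
  obtain ⟨W, hW, hmax⟩ := exists_max_image (univ.filter good) card
    ⟨W₀, mem_filter.2 ⟨mem_univ _, subset_rfl, h₀, fun j hj =>
      ⟨X, hW₀ j hj, fun _ _ => rfl, fun g hg i hi => hg i (mem_erase.1 hi).2⟩⟩⟩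
  obtain ⟨h1, h2, h3⟩ := (mem_filter.1 hW).2
  refine ⟨W, h1, h2, fun j hj => ?_, fun i hi k hk hkW g hg htight => ?_⟩
  · obtain ⟨Y, hY, -, hY'⟩ := h3 j hj
    exact ⟨Y, hY, hY'⟩
  have hik : i ≠ k := fun e => hkW (e ▸ hi)
  have hnew : good (insert k W) := by
    refine ⟨h1.trans (subset_insert _ _), insert_subset hk h2, fun j hj => ?_⟩
    rcases mem_insert.1 hj with rfl | hj
    · obtain ⟨Y, hY, hYX, hYf⟩ := h3 i hi
      have hYj : Y j = {g} := (hYX j hkW).trans hg
      have hup : ∀ l, l ≠ i → Function.update Y i {g} l = Y l := fun l hl =>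
        Function.update_of_ne hl _ _
      have hjm : j ∈ A.erase i := mem_erase.2 ⟨hik.symm, hk⟩
      have hmem : ∀ l ∈ A.erase j, l ≠ i → l ∈ A.erase i := fun l hl hli =>
        mem_erase.2 ⟨hli, (mem_erase.1 hl).2⟩
      refine ⟨Function.update Y i {g}, ⟨hY.le, hY.nonneg, fun l hl m hm hlm => ?_,
        fun l hl => ?_, fun g' hg' => ?_⟩, fun l hl => ?_, fun g' hg' l hl => ?_⟩
      · by_cases hli : l = i <;> by_cases hmi : m = i
        · exact absurd (hli.trans hmi.symm) hlm
        · rw [hli, Function.update_self, hup m hmi, ← hYj]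
          exact hY.disj j hjm m (hmem m hm hmi) (mem_erase.1 hm).1.symm
        · rw [hmi, Function.update_self, hup l hli, ← hYj]
          exact hY.disj l (hmem l hl hli) j hjm (mem_erase.1 hl).1
        · rw [hup l hli, hup m hmi]
          exact hY.disj l (hmem l hl hli) m (hmem m hm hmi) hlm
      · by_cases hli : l = i
        · rw [hli, Function.update_self]
          exact Or.inl ⟨g, rfl, htight⟩
        · rw [hup l hli]
          exact hY.holds l (hmem l hl hli)
      · refine hY.free g' fun l hl => ?_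
        by_cases hlj : l = j
        · have := hg' i (mem_erase.2 ⟨hik, h2 hi⟩)
          rwa [Function.update_self, ← hYj, ← hlj] at this
        · have := hg' l (mem_erase.2 ⟨hlj, (mem_erase.1 hl).2⟩)
          rwa [hup l (mem_erase.1 hl).1] at this
      · have hlW : l ∉ W := fun h => hl (mem_insert_of_mem h)
        rw [hup l fun e => hlW (e ▸ hi)]
        exact hYX l hlW
      · by_cases hli : l = i
        · rw [hli, Function.update_self, ← hg]
          exact hg' j hk
        · rw [hup l hli]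
          exact hYf g' hg' l (hmem l hl hli)
    · obtain ⟨Y, hY, hYX, hYf⟩ := h3 j hj
      exact ⟨Y, hY, fun l hl => hYX l fun h => hl (mem_insert_of_mem h), hYf⟩
  have := hmax _ (mem_filter.2 ⟨mem_univ _, hnew⟩)
  rw [card_insert_of_notMem hkW] at this
  omega

omit [DecidableEq ι] [DecidableEq G] in
theorem abs_le_total (a : ι → G → ℤ) (i : ι) (g : G) : |a i g| ≤ ∑ i, ∑ g, |a i g| :=
  (single_le_sum (f := fun g => |a i g|) (fun _ _ => abs_nonneg _) (mem_univ g)).trans
    (single_le_sum (f := fun i => ∑ g, |a i g|)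
      (fun _ _ => sum_nonneg fun _ _ => abs_nonneg _) (mem_univ i))

/-- An equilibrium in which every agent holds one good. -/
theorem exists_feas_one (a : ι → G → ℤ) (hcard : Fintype.card ι ≤ Fintype.card G) :
    ∃ π q X, Feas a 1 π q univ X := by
  classical
  set M := ∑ i, ∑ g, |a i g| with hM
  have single : ∀ {π q A X}, Feas a 1 π q A X → ∀ i ∈ A, ∃ g, X i = {g} ∧ π i + a i g = q g := by
    intro π q A X h i hi
    rcases h.holds i hi with h1 | ⟨h1, h2⟩
    · exact h1
    · obtain ⟨g, hg⟩ : (X i).Nonempty := card_pos.1 (by omega)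
      have h3 := h2 g hg
      have h4 := h.le i g
      dsimp only at h3
      omega
  obtain ⟨A, hA, hmax⟩ := exists_max_image
    (univ.filter fun A : Finset ι => ∃ π q X, Feas a 1 π q A X) card
    ⟨∅, mem_filter.2 ⟨mem_univ _, fun _ => -M, fun _ => 0, fun _ => ∅, fun i g => by
      have := abs_le_total a i g
      have := le_abs_self (a i g)
      omega, fun _ => le_rfl, by simp, by simp, fun _ _ => rfl⟩⟩
  have hA' := (mem_filter.1 hA).2
  by_cases hall : A = univ
  · rwa [hall] at hA'
  exfalso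
  obtain ⟨c, hc⟩ : ∃ c, c ∉ A := by
    by_contra hne
    push Not at hne
    exact hall (eq_univ_of_forall hne)
  have hbdd : ∀ π q X, Feas a 1 π q A X → ∑ i, π i ≤ ∑ _i : ι, M := by
    intro π q X h
    have h1 : (A.biUnion X).card < Fintype.card G := by
      have h2 : (A.biUnion X).card ≤ A.card * 1 := card_biUnion_le_card_mul _ _ _ fun i hi => by
        obtain ⟨g, hg, -⟩ := single h i hi
        simp [hg]
      have h3 := card_lt_univ_of_notMem hc
      omega
    obtain ⟨g, -, hg⟩ := exists_mem_notMem_of_card_lt_card (t := univ) h1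
    have h4 := h.free g fun i hi hgi => hg (mem_biUnion.2 ⟨i, hi, hgi⟩)
    refine sum_le_sum fun i _ => ?_
    have h5 := h.le i g
    have h6 := abs_le_total a i g
    have h7 := neg_abs_le (a i g)
    omega
  obtain ⟨z, ⟨π, q, X₀, h₀, rfl⟩, hz⟩ := Int.exists_greatest_of_bdd
    (P := fun z => ∃ π q X, Feas a 1 π q A X ∧ ∑ i, π i = z)
    ⟨_, by rintro _ ⟨π, q, X, h, rfl⟩; exact hbdd π q X h⟩
    (by obtain ⟨π, q, X, h⟩ := hA'; exact ⟨_, π, q, X, h, rfl⟩)
  obtain ⟨X, h, hXc⟩ : ∃ X, Feas a 1 π q A X ∧ X c = ∅ := by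
    have hup : ∀ i ∈ A, Function.update X₀ c ∅ i = X₀ i := fun i hi =>
      Function.update_of_ne (ne_of_mem_of_not_mem hi hc) _ _
    refine ⟨Function.update X₀ c ∅, ⟨h₀.le, h₀.nonneg, fun i hi j hj hij => ?_, fun i hi => ?_,
      fun g hg => h₀.free g fun i hi => hup i hi ▸ hg i hi⟩, Function.update_self ..⟩
    · rw [hup i hi, hup j hj]; exact h₀.disj i hi j hj hij
    · rw [hup i hi]; exact h₀.holds i hi
  obtain ⟨W, hW0, hWA, hhole, htight⟩ := grow (a := a) (κ := 1) (π := π) (q := q) (insert c A) X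
    {c} (by simp) (fun j hj => by rw [mem_singleton.1 hj, erase_insert hc]; exact h)
  have hcW : c ∈ W := hW0 (mem_singleton_self c)
  have hnt : ∀ j ∈ W, ∀ g, (∀ i ∈ A, g ∉ X i) → π j + a j g ≠ q g := by
    intro j hj g hg e
    obtain ⟨Y, hY, hYf⟩ := hhole j hj
    have h1 := hY.fill (B := {g}) (π' := π) (fun g' hg' => by
      rw [mem_singleton.1 hg']
      refine hYf g fun i hi => ?_
      rcases mem_insert.1 hi with rfl | hi
      · simp [hXc]
      · exact hg i hi) (fun _ _ => rfl) le_rfl (Or.inl ⟨g, rfl, e⟩)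
    have h2 := hmax _ (mem_filter.2 ⟨mem_univ _, _, _, _, h1⟩)
    rw [card_insert_of_notMem hc] at h2
    omega
  have hWm : ∀ k ∈ W, ∀ g ∈ X k, k ∈ A := fun k hk g hg => by
    rcases mem_insert.1 (hWA hk) with rfl | h1
    · simp [hXc] at hg
    · exact h1
  have hnew : Feas a 1 (fun i => if i ∈ W then π i + 1 else π i)
      (fun g => if ∃ k ∈ W, g ∈ X k then q g + 1 else q g) A X := by
    refine ⟨fun i g => ?_, fun g => ?_, h.disj, fun i hi => ?_, fun g hg => ?_⟩
    · have h1 := h.le i g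
      split_ifs with hi hg hg
      · omega
      · have : π i + a i g ≠ q g := by
          by_cases hf : ∀ k ∈ A, g ∉ X k
          · exact hnt i hi g hf
          · push Not at hf
            obtain ⟨k, hk, hgk⟩ := hf
            obtain ⟨g', hg', -⟩ := single h k hk
            have : g = g' := by simpa [hg'] using hgk
            subst this
            exact htight i hi k (mem_insert_of_mem hk) (fun hkW => hg ⟨k, hkW, hgk⟩) g hg'
        omega
      · omega
      · omega
    · have := h.nonneg g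
      split_ifs <;> omega
    · obtain ⟨g, hg, e⟩ := single h i hi
      have hgi : g ∈ X i := by simp [hg]
      refine Or.inl ⟨g, hg, ?_⟩
      by_cases hiW : i ∈ W
      · simp only [if_pos hiW, if_pos (⟨i, hiW, hgi⟩ : ∃ k ∈ W, g ∈ X k)]
        omega
      · have : ¬∃ k ∈ W, g ∈ X k := fun ⟨k, hk, hgk⟩ =>
          disjoint_left.1 (h.disj i hi k (hWm k hk g hgk) fun e => hiW (e ▸ hk)) hgi hgk
        simp only [if_neg hiW, if_neg this]
        exact e
    · have : ¬∃ k ∈ W, g ∈ X k := fun ⟨k, hk, hgk⟩ => hg k (hWm k hk g hgk) hgk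
      simp only [if_neg this]
      exact h.free g hg
  have h1 := hz _ ⟨_, _, _, hnew, rfl⟩
  have h2 : ∑ i, π i < ∑ i, if i ∈ W then π i + 1 else π i :=
    sum_lt_sum (fun i _ => by split_ifs <;> omega) ⟨c, mem_univ _, by rw [if_pos hcW]; omega⟩
  omega

/-- An equilibrium in which no agent values two unallocated goods above `κ`. -/
theorem exists_price (a : ι → G → ℤ) (hκ : κ ≤ 0) (hcard : Fintype.card ι ≤ Fintype.card G) :
    ∃ π q X, Feas a κ π q univ X ∧ ∀ j g g', (∀ i, g ∉ X i) → (∀ i, g' ∉ X i) →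
      κ < π j + a j g → κ < π j + a j g' → g = g' := by
  classical
  obtain ⟨z, ⟨π, q, X, h, rfl⟩, hz⟩ := Int.exists_least_of_bdd
    (P := fun z => ∃ π q X, Feas a κ π q univ X ∧ ∑ i, π i = z)
    ⟨∑ _i : ι, (κ - ∑ i, ∑ g, |a i g|), by
      rintro _ ⟨π, q, X, h, rfl⟩
      refine sum_le_sum fun i _ => ?_
      rcases h.holds i (mem_univ _) with ⟨g, -, e⟩ | ⟨h1, h2⟩
      · have h3 := h.nonneg g
        have h4 := abs_le_total a i g
        have h5 := le_abs_self (a i g)
        dsimp only at e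
        omega
      · obtain ⟨g, hg⟩ : (X i).Nonempty := card_pos.1 (by omega)
        have h3 := (h2 g hg).2
        have h4 := abs_le_total a i g
        have h5 := le_abs_self (a i g)
        dsimp only at h3
        omega⟩
    (by
      obtain ⟨π, q, X, h⟩ := exists_feas_one a hcard
      refine ⟨_, π, q, X, ⟨h.le, h.nonneg, h.disj, fun i hi => ?_, h.free⟩, rfl⟩
      rcases h.holds i hi with h1 | ⟨h1, h2⟩
      · exact Or.inl h1
      · exact Or.inr ⟨h1, fun g hg => ⟨(h2 g hg).1, by have := (h2 g hg).2; omega⟩⟩)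
  obtain ⟨W, hW0, -, hhole, htight⟩ := grow (a := a) (κ := κ) (π := π) (q := q) univ X
    (univ.filter fun j => ∀ g ∈ X j, q g = 0) (subset_univ _) (fun j hj =>
      ⟨h.le, h.nonneg, fun i _ l _ => h.disj i (mem_univ _) l (mem_univ _),
        fun i _ => h.holds i (mem_univ _), fun g hg => by
          by_cases hgj : g ∈ X j
          · exact (mem_filter.1 hj).2 g hgj
          · refine h.free g fun i _ => ?_
            by_cases hij : i = j
            · rwa [hij]
            · exact hg i (mem_erase.2 ⟨hij, mem_univ _⟩)⟩)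
  have hout : ∀ k, k ∉ W → ∃ g, X k = {g} ∧ π k + a k g = q g ∧ 1 ≤ q g := by
    intro k hk
    have h1 : ¬∀ g ∈ X k, q g = 0 := fun h1 => hk (hW0 (mem_filter.2 ⟨mem_univ _, h1⟩))
    rcases h.holds k (mem_univ _) with ⟨g, hg, e⟩ | ⟨-, h2⟩
    · refine ⟨g, hg, e, ?_⟩
      have h3 := h.nonneg g
      have h4 : q g ≠ 0 := fun h4 => h1 (by simp [hg, h4])
      omega
    · exact absurd (fun g hg => (h2 g hg).1) h1
  have hall : ∀ k, k ∈ W := by
    intro c
    by_contra hc
    have hnew : Feas a κ (fun i => if i ∈ W then π i else π i - 1)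
        (fun g => if ∃ k, k ∉ W ∧ g ∈ X k then q g - 1 else q g) univ X := by
      refine ⟨fun i g => ?_, fun g => ?_, h.disj, fun i hi => ?_, fun g hg => ?_⟩
      · have h1 := h.le i g
        split_ifs with hi hg hg
        · obtain ⟨k, hk, hgk⟩ := hg
          obtain ⟨g', hg', -⟩ := hout k hk
          have : g = g' := by simpa [hg'] using hgk
          subst this
          have := htight i hi k (mem_univ _) hk g hg'
          omega
        · omega
        · omega
        · omega
      · have := h.nonneg g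
        split_ifs with hg
        · obtain ⟨k, hk, hgk⟩ := hg
          obtain ⟨g', hg', -, h2⟩ := hout k hk
          have : g = g' := by simpa [hg'] using hgk
          subst this
          omega
        · exact this
      · by_cases hiW : i ∈ W
        · have h1 : ∀ g ∈ X i, ¬∃ k, k ∉ W ∧ g ∈ X k := fun g hgi ⟨k, hk, hgk⟩ =>
            disjoint_left.1 (h.disj i hi k (mem_univ _) fun e => hk (e ▸ hiW)) hgi hgk
          simp only [if_pos hiW]
          rcases h.holds i hi with ⟨g, hg, e⟩ | ⟨h2, h3⟩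
          · refine Or.inl ⟨g, hg, ?_⟩
            simp only [if_neg (h1 g (by simp [hg]))]
            exact e
          · refine Or.inr ⟨h2, fun g hg => ?_⟩
            simp only [if_neg (h1 g hg)]
            exact h3 g hg
        · obtain ⟨g, hg, e, -⟩ := hout i hiW
          refine Or.inl ⟨g, hg, ?_⟩
          simp only [if_neg hiW, if_pos (⟨i, hiW, by simp [hg]⟩ : ∃ k, k ∉ W ∧ g ∈ X k)]
          omega
      · have : ¬∃ k, k ∉ W ∧ g ∈ X k := fun ⟨k, _, hgk⟩ => hg k (mem_univ _) hgk
        simp only [if_neg this]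
        exact h.free g hg
    have h1 := hz _ ⟨_, _, _, hnew, rfl⟩
    have h2 : (∑ i, if i ∈ W then π i else π i - 1) < ∑ i, π i :=
      sum_lt_sum (fun i _ => by split_ifs <;> omega) ⟨c, mem_univ _, by rw [if_neg hc]; omega⟩
    omega
  refine ⟨π, q, X, h, fun j g g' hg hg' h1 h2 => ?_⟩
  by_contra hne
  obtain ⟨Y, hY, hYf⟩ := hhole j (hall j)
  have h3 := hY.fill (B := {g, g'}) (π' := fun i => if i = j then π i - 1 else π i)
    (fun c hc => by
      rcases mem_insert.1 hc with rfl | hc
      · exact hYf c fun i _ => hg i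
      · rw [mem_singleton.1 hc]; exact hYf g' fun i _ => hg' i)
    (fun i hi => if_neg hi) (by simp) (Or.inr ⟨card_pair hne, fun c hc => by
      simp only [if_true]
      rcases mem_insert.1 hc with rfl | hc
      · exact ⟨h.free c fun i _ => hg i, by omega⟩
      · rw [mem_singleton.1 hc]; exact ⟨h.free g' fun i _ => hg' i, by omega⟩⟩)
  have h4 := hz _ ⟨_, _, _, h3, rfl⟩
  have h5 : (∑ i, if i = j then π i - 1 else π i) < ∑ i, π i :=
    sum_lt_sum (fun i _ => by split_ifs <;> omega) ⟨j, mem_univ _, by simp⟩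
  omega

end Pool.Agent.Lib.MP_7939ee_co
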