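import Pool.Agent.Lib.MP_7939ee_co.Main
import Pool.Agent.Lib.MP_7939ee_co.H56Price

/-!
The factor `2 / 3`: a price equilibrium, a second draft in increasing order of prices, and envy
cycle elimination.
-/

namespace Pool.Agent.Lib.MP_7939ee_co

open Finset Filter Topology

variable {ι G : Type*} [Fintype ι] [DecidableEq ι] [Fintype G] [DecidableEq G]

lemma wt_le_add {D R s s' : ℝ} (h : s' ≤ s) : wt D R s ≤ wt D R s' + (s - s') := by
  unfold wt
  simp only [min_def, max_def]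
  split_ifs <;> linarith

omit [Fintype ι] in
/-- The weight argument with an extra value `E` spread over the goods. -/
theorem exists_part_lt_extra {w w' : G → ℝ} {D R x E : ℝ} (hw : ∀ g, 0 ≤ w' g)
    (hle : ∀ g, w' g ≤ w g) (hE : ∑ g, (w g - w' g) ≤ E) (hD : 0 ≤ D) (hDR : D ≤ R)
    (hx : D ≤ 2 * (R - x)) (X : ι → Finset G) (hX : ∀ i j, i ≠ j → Disjoint (X i) (X j))
    (S : Finset ι) {i : ι} (hi : i ∈ S) (hl : ∀ j ∈ S, Light w' x D R (X j))
    (hown : ∑ g ∈ X i, w' g + E < D) (p : G → Fin S.card) :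
    ∃ j, ∑ g ∈ (S.biUnion X).filter fun g => p g = j, w g < R := by
  by_contra hcon
  push Not at hcon
  have h1 : ∑ _j : Fin S.card, D ≤
      ∑ j, ∑ g ∈ (S.biUnion X).filter fun g => p g = j, wt D R (w g) :=
    sum_le_sum fun j _ => part_ge (fun g => (hw g).trans (hle g)) hD hDR (hcon j)
  rw [sum_fiberwise] at h1
  have h2 : ∑ g ∈ S.biUnion X, wt D R (w g) ≤
      ∑ g ∈ S.biUnion X, wt D R (w' g) + ∑ g ∈ S.biUnion X, (w g - w' g) := by
    rw [← sum_add_distrib]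
    exact sum_le_sum fun g _ => wt_le_add (hle g)
  have h3 : ∑ g ∈ S.biUnion X, (w g - w' g) ≤ ∑ g, (w g - w' g) :=
    sum_le_sum_of_subset_of_nonneg (subset_univ _) fun g _ _ => sub_nonneg.2 (hle g)
  have h4 : ∑ g ∈ S.biUnion X, wt D R (w' g) = ∑ j ∈ S, ∑ g ∈ X j, wt D R (w' g) :=
    sum_biUnion fun a _ b _ hab => hX a b hab
  have h5 : ∑ j ∈ S.erase i, ∑ g ∈ X j, wt D R (w' g) ≤ ∑ _j ∈ S.erase i, D :=
    sum_le_sum fun j hj => (hl j (mem_of_mem_erase hj)).wt_le hD hDR hx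
  have h6 : ∑ g ∈ X i, wt D R (w' g) ≤ ∑ g ∈ X i, w' g := sum_le_sum fun g _ => wt_le_self hDR
  have h7 := add_sum_erase S (fun j => ∑ g ∈ X j, wt D R (w' g)) hi
  have h8 := add_sum_erase S (fun _ => D) hi
  simp only [sum_const, card_univ, Fintype.card_fin] at h1 h5 h8
  linarith

/-- The guarantee for scaled values `w` that are in equilibrium with prices `P`. -/
theorem exists_alloc_priced {θ : ℝ} (hθ : 2 / 3 ≤ θ) (hθ' : θ ≤ 3 / 4) (w : ι → G → ℝ)
    (P : G → ℝ) (X : ι → Finset G) [Nonempty ι]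
    (hcard : 3 * Fintype.card ι ≤ Fintype.card G) (hw : ∀ i g, 0 < w i g)
    (hle : ∀ i g, w i g ≤ P g) (hP : ∀ g, 1 ≤ P g)
    (hdisj : ∀ i j, i ≠ j → Disjoint (X i) (X j))
    (hholds : ∀ i, (∃ g, X i = {g} ∧ w i g = P g) ∨
      ((X i).card = 2 ∧ ∀ g ∈ X i, P g = 1 ∧ θ ≤ w i g))
    (hfree : ∀ g, (∀ i, g ∉ X i) → P g = 1)
    (hexc : ∀ j g g', (∀ i, g ∉ X i) → (∀ i, g' ∉ X i) → θ < w j g → θ < w j g' → g = g') :
    ∃ Y : ι → Finset G, (∀ i j, i ≠ j → Disjoint (Y i) (Y j)) ∧ (∀ g, ∃ j, g ∈ Y j) ∧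
      ∀ i, ∀ S : Finset ι, i ∈ S → ∀ p : G → Fin S.card,
        ∃ j, ∑ g ∈ (S.biUnion Y).filter fun g => p g = j, w i g ≤ 3 / 2 * ∑ g ∈ Y i, w i g := by
  classical
  have : Nonempty G := Fintype.card_pos_iff.1 (by
    have := Fintype.card_pos (α := ι)
    omega)
  set val : ι → ℝ := fun i => ∑ g ∈ X i, w i g with hval
  set Z : Finset ι := univ.filter fun i => val i < 2 * θ with hZ
  have hZ1 : ∀ i ∈ Z, val i < 2 * θ := fun i hi => (mem_filter.1 hi).2
  have hZ2 : ∀ i, i ∉ Z → 2 * θ ≤ val i := fun i hi =>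
    not_lt.1 fun h => hi (mem_filter.2 ⟨mem_univ _, h⟩)
  have hlow : ∀ i ∈ Z, ∃ g, X i = {g} ∧ val i = P g := by
    intro i hi
    rcases hholds i with ⟨g, hg, e⟩ | ⟨h1, h2⟩
    · exact ⟨g, hg, by simp [hval, hg, e]⟩
    · have h3 : (X i).card • θ ≤ val i := card_nsmul_le_sum _ _ _ fun g hg => (h2 g hg).2
      rw [h1] at h3
      have h4 := hZ1 i hi
      simp only [nsmul_eq_mul, Nat.cast_ofNat] at h3
      linarith
  have hlow1 : ∀ i ∈ Z, 1 ≤ val i := fun i hi => by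
    obtain ⟨g, -, e⟩ := hlow i hi
    rw [e]; exact hP g
  set U : Finset G := univ.filter fun g => ∀ i, g ∉ X i with hU
  have hU1 : ∀ g, g ∈ U ↔ ∀ i, g ∉ X i := fun g => by simp [hU]
  have hUle : ∀ i, ∀ g ∈ U, w i g ≤ 1 := fun i g hg => hfree g ((hU1 g).1 hg) ▸ hle i g
  have hUcard : Z.card ≤ U.card := by
    have h1 : (univ.biUnion X).card ≤ (univ : Finset ι).card * 2 :=
      card_biUnion_le_card_mul _ _ _ fun i _ => by
        rcases hholds i with ⟨g, hg, -⟩ | ⟨h1, -⟩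
        · simp [hg]
        · omega
    have h2 : U = univ \ univ.biUnion X := by ext g; simp [hU]
    have h3 := card_le_univ Z
    rw [h2, card_univ_sdiff]
    rw [card_univ] at h1
    omega
  set t : ι → ℕ := fun i => (univ.filter fun k => val i ≤ val k).card with ht
  have htle : ∀ i j, t i ≤ t j → val j ≤ val i := by
    intro i j hij
    by_contra hne
    push Not at hne
    have : (univ.filter fun k => val j ≤ val k) ⊂ univ.filter fun k => val i ≤ val k :=
      (ssubset_iff_of_subset fun k hk => mem_filter.2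
        ⟨mem_univ _, hne.le.trans (mem_filter.1 hk).2⟩).2 ⟨i, by simp, by simpa using hne⟩
    exact absurd (card_lt_card this) (not_lt.2 hij)
  obtain ⟨s, hs1, hs2, hs3⟩ := exists_serial w t U Z hUcard
  have hsX : ∀ i ∈ Z, ∀ j, s i ∉ X j := fun i hi => (hU1 _).1 (hs2 i hi)
  set w' : ι → G → ℝ := fun i g => if i ∉ Z ∧ g ∈ U then min (w i g) θ else w i g with hw'
  have hw'le : ∀ i g, w' i g ≤ w i g := fun i g => by
    simp only [hw']; split_ifs
    exacts [min_le_left _ _, le_rfl]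
  have hw'0 : ∀ i g, 0 ≤ w' i g := fun i g => by
    simp only [hw']; split_ifs
    exacts [le_min (hw i g).le (by linarith), (hw i g).le]
  have hw'Z : ∀ i ∈ Z, ∀ g, w' i g = w i g := fun i hi g => if_neg fun h => h.1 hi
  have hw'X : ∀ i j, ∀ g ∈ X j, w' i g = w i g := fun i j g hg =>
    if_neg fun h => (hU1 g).1 h.2 j hg
  have hw'U : ∀ i, i ∉ Z → ∀ g ∈ U, w' i g ≤ θ := fun i hi g hg => by
    simp only [hw']; rw [if_pos ⟨hi, hg⟩]; exact min_le_right _ _
  set X' : ι → Finset G := fun i => if i ∈ Z then insert (s i) (X i) else X i with hX'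
  have hX'Z : ∀ i ∈ Z, X' i = insert (s i) (X i) := fun i hi => if_pos hi
  have hX'N : ∀ i, i ∉ Z → X' i = X i := fun i hi => if_neg hi
  have hVZ : ∀ i ∈ Z, ∑ g ∈ X' i, w' i g = w i (s i) + val i := fun i hi => by
    rw [hX'Z i hi, sum_insert (hsX i hi i)]
    simp only [hw'Z i hi, hval]
  have hVN : ∀ i, i ∉ Z → ∑ g ∈ X' i, w' i g = val i := fun i hi => by
    rw [hX'N i hi]
    exact sum_congr rfl fun g hg => hw'X i i g hg
  have hinv : Inv (3 / 2) w' (fun i => if i ∈ Z then val i else 0)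
      (fun i => if i ∈ Z then w i (s i) else θ) X' := by
    refine ⟨fun i j hij => ?_, fun i => ?_, fun i => ?_, fun i g hg => ?_, fun i j => ?_⟩
    · by_cases hi : i ∈ Z <;> by_cases hj : j ∈ Z
      · rw [hX'Z i hi, hX'Z j hj]
        have h1 : s i ≠ s j := fun e => hij (hs1 hi hj e)
        simp [disjoint_insert_left, disjoint_insert_right, h1.symm, hsX i hi j, hsX j hj i,
          hdisj i j hij]
      · rw [hX'Z i hi, hX'N j hj]
        exact disjoint_insert_left.2 ⟨hsX i hi j, hdisj i j hij⟩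
      · rw [hX'N i hi, hX'Z j hj]
        exact disjoint_insert_right.2 ⟨hsX j hj i, hdisj i j hij⟩
      · rw [hX'N i hi, hX'N j hj]
        exact hdisj i j hij
    · by_cases hi : i ∈ Z
      · simp only [if_pos hi, hVZ i hi]; linarith
      · simp only [if_neg hi, hVN i hi]; linarith [hZ2 i hi]
    · by_cases hi : i ∈ Z
      · simp only [if_pos hi, hVZ i hi]
        linarith [hlow1 i hi, hUle i _ (hs2 i hi)]
      · simp only [if_neg hi, hVN i hi]; linarith [hZ2 i hi]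
    · have hgU : g ∈ U := (hU1 g).2 fun j hj => hg j (by
        by_cases hjZ : j ∈ Z
        · rw [hX'Z j hjZ]; exact mem_insert_of_mem hj
        · rwa [hX'N j hjZ])
      by_cases hi : i ∈ Z
      · simp only [if_pos hi, hw'Z i hi]
        refine hs3 i hi g hgU fun j hj _ _ e => hg j ?_
        rw [hX'Z j hj, e]; exact mem_insert_self _ _
      · simp only [if_neg hi]; exact hw'U i hi g hgU
    · by_cases hj : j ∈ Z
      · obtain ⟨f, hf, hfv⟩ := hlow j hj
        have hsf : s j ∉ X j := hsX j hj j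
        have hsum : ∑ g ∈ X' j, w' i g = w' i (s j) + w' i f := by
          rw [hX'Z j hj, sum_insert hsf, hf, sum_singleton]
        have hwf : w' i f ≤ val j := (hw'le i f).trans (hfv ▸ hle i f)
        have h2 := hZ1 j hj
        refine Or.inr (Or.inl ⟨by rw [hX'Z j hj, hf]; exact card_le_two, ?_⟩)
        by_cases hi : i ∈ Z
        · by_cases hij : t i ≤ t j
          · right
            simp only [if_pos hi, hX'Z j hj, hf, mem_insert, mem_singleton]
            rintro g (rfl | rfl)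
            · linarith [hw'le i (s j), hUle i _ (hs2 j hj), hlow1 i hi]
            · exact hwf.trans (htle i j hij)
          · left
            have h3 := hs3 i hi _ (hs2 j hj) fun l hl hil _ e =>
              hij (by rw [← hs1 hl hj e]; exact hil)
            rw [hsum, hVZ i hi]
            linarith [hw'le i (s j), hlow1 i hi, hw i (s i)]
        · left
          rw [hsum, hVN i hi]
          linarith [hw'U i hi _ (hs2 j hj), hZ2 i hi]
      · rw [hX'N j hj]
        rcases hholds j with ⟨g, hg, -⟩ | ⟨h1, h2⟩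
        · exact Or.inl (by simp [hg])
        have h3 : ∀ g ∈ X j, w' i g ≤ 1 := fun g hg => (hw'le i g).trans ((h2 g hg).1 ▸ hle i g)
        refine Or.inr (Or.inl ⟨h1.le, ?_⟩)
        by_cases hi : i ∈ Z
        · right
          simp only [if_pos hi]
          exact fun g hg => (h3 g hg).trans (hlow1 i hi)
        · left
          have h4 : ∑ g ∈ X j, w' i g ≤ (X j).card • (1 : ℝ) := sum_le_card_nsmul _ _ _ h3
          rw [h1] at h4
          simp only [nsmul_eq_mul, Nat.cast_ofNat] at h4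
          rw [hVN i hi]
          linarith [hZ2 i hi]
  obtain ⟨Y, h, hall⟩ := hinv.complete (by norm_num) hw'0
  refine ⟨Y, h.disj, hall, fun i S hi p => ?_⟩
  have h1 := h.both i
  have h2 := h.last i
  have h3 := h.light i
  have hV : 0 ≤ ∑ g ∈ Y i, w' i g := sum_nonneg fun g _ => hw'0 i g
  have hV' : ∑ g ∈ Y i, w' i g ≤ ∑ g ∈ Y i, w i g := sum_le_sum fun g _ => hw'le i g
  by_cases hiZ : i ∈ Z
  · simp only [if_pos hiZ] at h1 h2 h3
    have h4 := hw i (s i)
    obtain ⟨j, hj⟩ := exists_part_lt_extra (w := w i) (E := 0) (hw'0 i) (hw'le i)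
      (by simp [hw'Z i hiZ]) (by linarith) (by linarith) (by linarith) Y h.disj S hi
      (fun j _ => h3 j) (by linarith) p
    exact ⟨j, by linarith⟩
  · simp only [if_neg hiZ] at h1 h2 h3
    have hE : ∑ g, (w i g - w' i g) ≤ 1 - θ := by
      have h5 : ∀ g, ¬(g ∈ U ∧ θ < w i g) → w i g - w' i g = 0 := fun g hg => by
        simp only [hw']; split_ifs with h6
        · rw [min_eq_left (not_lt.1 fun h7 => hg ⟨h6.2, h7⟩), sub_self]
        · exact sub_self _
      by_cases h6 : ∃ g, g ∈ U ∧ θ < w i g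
      · obtain ⟨g, hgU, hg⟩ := h6
        rw [sum_eq_single g (fun g' _ hne => h5 g' fun h7 =>
          hne (hexc i g' g ((hU1 _).1 h7.1) ((hU1 _).1 hgU) h7.2 hg)) (by simp)]
        simp only [hw']
        rw [if_pos ⟨hiZ, hgU⟩, min_eq_right hg.le]
        linarith [hUle i g hgU]
      · rw [sum_eq_zero fun g _ => h5 g fun h7 => h6 ⟨g, h7⟩]
        linarith
    obtain ⟨j, hj⟩ := exists_part_lt_extra (w := w i) (hw'0 i) (hw'le i) hE
      (by linarith) (by linarith) (by linarith) Y h.disj S hi (fun j _ => h3 j) (by linarith) p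
    exact ⟨j, by linarith⟩

/-- The guarantee up to a small error. -/
theorem exists_alloc_approx (v : ι → G → ℝ) (hv : ∀ i g, 0 ≤ v i g) [Nonempty ι]
    (hcard : 3 * Fintype.card ι ≤ Fintype.card G) {η : ℝ} (hη : 0 < η) (hη' : η ≤ 1 / 8) :
    ∃ Y : ι → Finset G, (∀ i j, i ≠ j → Disjoint (Y i) (Y j)) ∧ (∀ g, ∃ j, g ∈ Y j) ∧
      ∀ i, ∀ S : Finset ι, i ∈ S → ∀ p : G → Fin S.card,
        ∃ j, ∑ g ∈ (S.biUnion Y).filter fun g => p g = j, v i g ≤
          3 / 2 * ((1 + η) * ∑ g ∈ Y i, (v i g + η)) := by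
  have hβ : 1 < 1 + η := by linarith
  have hβ0 : 0 < 1 + η := by linarith
  obtain ⟨κ, hκ1, hκ2⟩ := exists_mem_Ico_zpow (x := (3 / 4 : ℝ)) (by norm_num) hβ
  have hκ3 : 2 / 3 ≤ (1 + η) ^ κ := by
    rw [zpow_add_one₀ hβ0.ne'] at hκ2
    nlinarith [zpow_pos hβ0 κ]
  have hκ0 : κ ≤ 0 := by
    have : (1 + η) ^ κ ≤ (1 + η) ^ (0 : ℤ) := by rw [zpow_zero]; linarith
    exact (zpow_le_zpow_iff_right₀ hβ).1 this
  choose a ha using fun i g => exists_mem_Ico_zpow (x := v i g + η) (by linarith [hv i g]) hβ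
  obtain ⟨π, q, X, h, hexc⟩ := exists_price (κ := κ) a hκ0 (by omega)
  obtain ⟨Y, hd, hall, hY⟩ := exists_alloc_priced hκ3 hκ1 (fun i g => (1 + η) ^ (π i + a i g))
    (fun g => (1 + η) ^ q g) X hcard (fun i g => zpow_pos hβ0 _)
    (fun i g => zpow_le_zpow_right₀ hβ.le (h.le i g))
    (fun g => one_le_zpow₀ hβ.le (h.nonneg g))
    (fun i j => h.disj i (mem_univ _) j (mem_univ _))
    (fun i => by
      rcases h.holds i (mem_univ _) with ⟨g, hg, e⟩ | ⟨h1, h2⟩
      · exact Or.inl ⟨g, hg, congrArg _ e⟩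
      · exact Or.inr ⟨h1, fun g hg => ⟨by rw [(h2 g hg).1, zpow_zero],
          zpow_le_zpow_right₀ hβ.le (h2 g hg).2⟩⟩)
    (fun g hg => by rw [h.free g fun i _ => hg i, zpow_zero])
    (fun j g g' hg hg' h1 h2 => hexc j g g' hg hg' ((zpow_lt_zpow_iff_right₀ hβ).1 h1)
      ((zpow_lt_zpow_iff_right₀ hβ).1 h2))
  refine ⟨Y, hd, hall, fun i S hi p => ?_⟩
  obtain ⟨j, hj⟩ := hY i S hi p
  refine ⟨j, ?_⟩
  simp only [zpow_add₀ hβ0.ne', ← mul_sum] at hj
  have h1 : ∑ g ∈ (S.biUnion Y).filter fun g => p g = j, (1 + η) ^ a i g ≤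
      3 / 2 * ∑ g ∈ Y i, (1 + η) ^ a i g := by
    have := zpow_pos hβ0 (π i)
    nlinarith
  have h2 : ∑ g ∈ (S.biUnion Y).filter fun g => p g = j, v i g ≤
      (1 + η) * ∑ g ∈ (S.biUnion Y).filter fun g => p g = j, (1 + η) ^ a i g := by
    rw [mul_sum]
    refine sum_le_sum fun g _ => ?_
    have := (ha i g).2
    rw [zpow_add_one₀ hβ0.ne'] at this
    linarith
  have h3 : ∑ g ∈ Y i, (1 + η) ^ a i g ≤ ∑ g ∈ Y i, (v i g + η) :=
    sum_le_sum fun g _ => (ha i g).1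
  nlinarith

/-- The exact guarantee when there are many goods. -/
theorem exists_alloc_exact (v : ι → G → ℝ) (hv : ∀ i g, 0 ≤ v i g) [Nonempty ι]
    (hcard : 3 * Fintype.card ι ≤ Fintype.card G) :
    ∃ Y : ι → Finset G, (∀ i j, i ≠ j → Disjoint (Y i) (Y j)) ∧ (∀ g, ∃ j, g ∈ Y j) ∧
      ∀ i, ∀ S : Finset ι, i ∈ S → ∀ p : G → Fin S.card,
        ∃ j, ∑ g ∈ (S.biUnion Y).filter fun g => p g = j, v i g ≤ 3 / 2 * ∑ g ∈ Y i, v i g := by
  by_contra hcon
  have key : ∀ Y : ι → Finset G, ∀ᶠ η in 𝓝[>] (0 : ℝ),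
      ¬((∀ i j, i ≠ j → Disjoint (Y i) (Y j)) ∧ (∀ g, ∃ j, g ∈ Y j) ∧
        ∀ i, ∀ S : Finset ι, i ∈ S → ∀ p : G → Fin S.card,
          ∃ j, ∑ g ∈ (S.biUnion Y).filter fun g => p g = j, v i g ≤
            3 / 2 * ((1 + η) * ∑ g ∈ Y i, (v i g + η))) := by
    intro Y
    by_cases h : (∀ i j, i ≠ j → Disjoint (Y i) (Y j)) ∧ ∀ g, ∃ j, g ∈ Y j
    · have h1 : ¬∀ i, ∀ S : Finset ι, i ∈ S → ∀ p : G → Fin S.card,
          ∃ j, ∑ g ∈ (S.biUnion Y).filter fun g => p g = j, v i g ≤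
            3 / 2 * ∑ g ∈ Y i, v i g := fun h1 => hcon ⟨Y, h.1, h.2, h1⟩
      push Not at h1
      obtain ⟨i, S, hi, p, hp⟩ := h1
      have h2 : Continuous fun η : ℝ => 3 / 2 * ((1 + η) * ∑ g ∈ Y i, (v i g + η)) := by
        fun_prop
      have h3 : ∀ᶠ η in 𝓝 (0 : ℝ), ∀ j, 3 / 2 * ((1 + η) * ∑ g ∈ Y i, (v i g + η)) <
          ∑ g ∈ (S.biUnion Y).filter fun g => p g = j, v i g :=
        eventually_all.2 fun j => (h2.tendsto 0).eventually_lt_const (by simpa using hp j)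
      filter_upwards [h3.filter_mono nhdsWithin_le_nhds] with η hη h4
      obtain ⟨j, hj⟩ := h4.2.2 i S hi p
      exact absurd (hη j) (not_lt.2 hj)
    · exact Eventually.of_forall fun η h1 => h ⟨h1.1, h1.2.1⟩
  have h8 : ∀ᶠ η in 𝓝[>] (0 : ℝ), η ≤ 1 / 8 :=
    (eventually_le_nhds (by norm_num)).filter_mono nhdsWithin_le_nhds
  obtain ⟨η, ⟨h1, h2⟩, h3⟩ := (((eventually_all.2 key).and h8).and self_mem_nhdsWithin).exists
  obtain ⟨Y, hY⟩ := exists_alloc_approx v hv hcard h3 h2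
  exact h1 Y hY

/-- The guarantee for any number of goods, by adding worthless goods. -/
theorem exists_alloc_two_thirds (v : ι → G → ℝ) (hv : ∀ i g, 0 ≤ v i g) [Nonempty ι] :
    ∃ A : G → ι, ∀ i, ∀ S : Finset ι, i ∈ S → ∀ p : G → Fin S.card,
      ∃ j, ∑ g ∈ (univ.filter fun g => A g ∈ S).filter fun g => p g = j, v i g ≤
        3 / 2 * ∑ g ∈ univ.filter fun g => A g = i, v i g := by
  obtain ⟨X, hd, hall, h⟩ := exists_alloc_exact (G := G ⊕ Fin (3 * Fintype.card ι))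
    (fun i => Sum.elim (v i) fun _ => 0) (by rintro i (g | g) <;> simp [hv]) (by simp)
  choose A hA using hall
  have hiff : ∀ g j, g ∈ X j ↔ A g = j := fun g j =>
    ⟨fun hg => by
      by_contra hne
      exact disjoint_left.1 (hd _ _ hne) (hA g) hg, fun e => e ▸ hA g⟩
  have key : ∀ (i : ι) (T : Finset (G ⊕ Fin (3 * Fintype.card ι))),
      ∑ g ∈ T, Sum.elim (v i) (fun _ => 0) g = ∑ g ∈ T.toLeft, v i g := by
    intro i T
    rw [sum_sum_eq_sum_toLeft_add_sum_toRight]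
    simp
  refine ⟨fun g => A (Sum.inl g), fun i S hi p => ?_⟩
  obtain ⟨j, hj⟩ := h i S hi (Sum.elim p fun _ => ⟨0, card_pos.2 ⟨i, hi⟩⟩)
  refine ⟨j, ?_⟩
  rw [key, key] at hj
  convert hj using 2
  · ext g
    simp [hiff]
  · congr 1
    ext g
    simp [hiff]

end Pool.Agent.Lib.MP_7939ee_co
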