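import Mathlib

/-!
Rounds of maximum matchings with frozen agents, for two positive values per agent.
-/

namespace Pool.Agent.Lib.MP_7939ee_co.H90

open Finset
open scoped Classical

variable {N G : Type} [Fintype N] (L Z : N → G → Prop) (p : N → ℕ)

omit [Fintype N] in
/-- A matching of greatest weight and the freezing times. -/
theorem matching [Nonempty G] (hp : ∀ i, 2 ≤ p i) (U : Finset N) (M : Finset G) :
    ∃ (W : Finset N) (f : N → G) (τ : N → ℕ), W ⊆ U ∧ Set.InjOn f W ∧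
      (∀ j ∈ W, f j ∈ M ∧ L j (f j)) ∧ (∀ j, j ∉ W → τ j = 0) ∧
      (∀ i ∈ U, i ∉ W → ∀ g ∈ M, L i g → ∃ k ∈ W, f k = g ∧ p i ≤ τ k + 1) ∧
      ∀ j, 0 < τ j → τ j + 1 ≤ p j ∧ ∀ g ∈ M, L j g → ∃ k ∈ W, f k = g ∧ τ j ≤ τ k := by
  let nb : N → Finset G := fun j => M.filter (L j)
  let H : Finset N → Prop := fun X => ∀ S ⊆ X, #S ≤ #(S.biUnion nb)
  obtain ⟨W, hW, hmax⟩ := exists_max_image (U.powerset.filter H) (fun X => ∑ j ∈ X, p j)
    ⟨∅, mem_filter.2 ⟨by simp, fun S hS => by simp [subset_empty.1 hS]⟩⟩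
  obtain ⟨hWU, hH⟩ := mem_filter.1 hW
  rw [mem_powerset] at hWU
  obtain ⟨f0, f1, f2⟩ := (all_card_le_biUnion_card_iff_exists_injective
    fun j : W => nb j.1).1 fun s => by
      have h := hH (s.image Subtype.val) fun x hx => by
        obtain ⟨y, -, rfl⟩ := mem_image.1 hx
        exact y.2
      rwa [card_image_of_injective _ Subtype.val_injective, image_biUnion] at h
  let f : N → G := fun j => if h : j ∈ W then f0 ⟨j, h⟩ else Classical.arbitrary G
  have hf : ∀ j ∈ W, f j ∈ nb j := fun j hj => by simpa only [f, dif_pos hj] using f2 ⟨j, hj⟩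
  have hinj : Set.InjOn f W := fun a ha b hb e => by
    simp only [f, dif_pos (mem_coe.1 ha), dif_pos (mem_coe.1 hb)] at e
    exact congrArg Subtype.val (f1 e)
  have key : ∀ i, ∃ S : Finset N, i ∈ U → i ∉ W → i ∈ S ∧ (∀ j ∈ S, p i ≤ p j) ∧
      ∀ j ∈ S, ∀ g ∈ M, L j g → ∃ k ∈ W, k ∈ S ∧ f k = g := fun i => by
    by_cases hi : i ∈ U ∧ i ∉ W
    swap
    · exact ⟨∅, fun a b => (hi ⟨a, b⟩).elim⟩
    have h1 : ¬ H (insert i W) := fun h => by
      have h2 := hmax _ (mem_filter.2 ⟨mem_powerset.2 (insert_subset hi.1 hWU), h⟩)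
      rw [sum_insert hi.2] at h2
      have := hp i
      omega
    obtain ⟨S, hS, hmin⟩ := exists_min_image ((insert i W).powerset.filter
      fun S => #(S.biUnion nb) < #S) card (by
        simp only [H, not_forall, not_le] at h1
        obtain ⟨S, a, b⟩ := h1
        exact ⟨S, mem_filter.2 ⟨mem_powerset.2 a, b⟩⟩)
    obtain ⟨s1, s2⟩ := mem_filter.1 hS
    rw [mem_powerset] at s1
    have herase : ∀ T ⊆ insert i W, T.erase i ⊆ W := fun T hT x hx =>
      (mem_insert.1 (hT (mem_of_mem_erase hx))).resolve_left (ne_of_mem_erase hx)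
    have hiS : i ∈ S := by
      by_contra h
      have := hH S (erase_eq_of_notMem h ▸ herase S s1)
      omega
    refine ⟨S, fun _ _ => ⟨hiS, fun j hj => ?_, fun j hj g hg hL => ?_⟩⟩
    · by_cases hji : j = i
      · rw [hji]
      have hjW : j ∈ W := herase S s1 (mem_erase.2 ⟨hji, hj⟩)
      have h2 : H (insert i (W.erase j)) := fun T hT => by
        by_contra h3
        have hT' : T ⊆ insert i W := hT.trans (insert_subset_insert _ (erase_subset _ _))
        have h4 := hH _ (herase (T ∪ S) (union_subset hT' s1))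
        have h5 := card_le_card (biUnion_subset_biUnion_of_subset_left nb (erase_subset i (T ∪ S)))
        have h6 : #((T ∩ S).biUnion nb) ≤ #(T.biUnion nb ∩ S.biUnion nb) := card_le_card
          (subset_inter (biUnion_subset_biUnion_of_subset_left _ inter_subset_left)
            (biUnion_subset_biUnion_of_subset_left _ inter_subset_right))
        have h7 := card_union_add_card_inter (T.biUnion nb) (S.biUnion nb)
        have h8 := card_union_add_card_inter T S
        have h9 := pred_card_le_card_erase (s := T ∪ S) (a := i)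
        rw [← union_biUnion] at h7
        have h10 := hmin (T ∩ S) (mem_filter.2 ⟨mem_powerset.2 (inter_subset_right.trans s1),
          by omega⟩)
        have h11 : j ∈ T := (mem_inter.1
          ((eq_of_subset_of_card_le inter_subset_right h10).ge hj)).1
        simpa [hji] using hT h11
      have h3 := hmax _ (mem_filter.2 ⟨mem_powerset.2
        (insert_subset hi.1 ((erase_subset _ _).trans hWU)), h2⟩)
      rw [sum_insert fun h => hi.2 (mem_of_mem_erase h), ← add_sum_erase W p hjW] at h3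
      omega
    · have h2 : (S.erase i).image f = S.biUnion nb := eq_of_subset_of_card_le
        (fun x hx => by
          obtain ⟨k, hk, rfl⟩ := mem_image.1 hx
          exact mem_biUnion.2 ⟨k, mem_of_mem_erase hk, hf k (herase S s1 hk)⟩) (by
          rw [card_image_of_injOn (hinj.mono (herase S s1)), card_erase_of_mem hiS]
          omega)
      obtain ⟨k, hk, e⟩ := mem_image.1 (h2 ▸ mem_biUnion.2 ⟨j, hj, mem_filter.2 ⟨hg, hL⟩⟩ :
        g ∈ (S.erase i).image f)
      exact ⟨k, herase S s1 hk, mem_of_mem_erase hk, e⟩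
  choose S hS using key
  let τ : N → ℕ := fun j =>
    if j ∈ W then ((U \ W).filter fun i => j ∈ S i).sup fun i => p i - 1 else 0
  have hτ : ∀ i ∈ U, i ∉ W → ∀ k ∈ W, k ∈ S i → p i - 1 ≤ τ k := fun i a b k c d => by
    simp only [τ, if_pos c]
    exact le_sup (f := fun i => p i - 1) (mem_filter.2 ⟨mem_sdiff.2 ⟨a, b⟩, d⟩)
  refine ⟨W, f, τ, hWU, hinj, fun j hj => mem_filter.1 (hf j hj), fun j hj => if_neg hj,
    fun i a b g hg hL => ?_, fun j hj => ?_⟩
  · obtain ⟨k, c, d, e⟩ := (hS i a b).2.2 i (hS i a b).1 g hg hL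
    exact ⟨k, c, e, by have := hτ i a b k c d; omega⟩
  · have hjW : j ∈ W := by_contra fun h => by simp [τ, h] at hj
    obtain ⟨i, hi, e⟩ := exists_mem_eq_sup ((U \ W).filter fun i => j ∈ S i)
      (nonempty_iff_ne_empty.2 fun h => by simp [τ, h] at hj) fun i => p i - 1
    obtain ⟨h1, h2⟩ := mem_filter.1 hi
    obtain ⟨a, b⟩ := mem_sdiff.1 h1
    have h3 : τ j = p i - 1 := (if_pos hjW).trans e
    refine ⟨by have := (hS i a b).2.1 j h2; omega, fun g hg hL => ?_⟩
    obtain ⟨k, c, d, e⟩ := (hS i a b).2.2 j h2 g hg hL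
    exact ⟨k, c, e, h3 ▸ hτ i a b k c d⟩

omit [Fintype N] in
theorem extend {U W : Finset N} {M : Finset G} {f : N → G} (h1 : W ⊆ U) (h2 : Set.InjOn f W)
    (h3 : ∀ j ∈ W, f j ∈ M ∧ Z j (f j)) : ∃ (D : Finset N) (h : N → G), W ⊆ D ∧ D ⊆ U ∧
      Set.InjOn h D ∧ (∀ j ∈ W, h j = f j) ∧ (∀ j ∈ D, h j ∈ M ∧ Z j (h j)) ∧
      ∀ i ∈ U, i ∉ D → ∀ g ∈ M, Z i g → g ∈ D.image h := by
  obtain ⟨D, hD, hmax⟩ := exists_max_image (U.powerset.filter fun D => ∃ h : N → G, W ⊆ D ∧
    Set.InjOn h D ∧ (∀ j ∈ W, h j = f j) ∧ ∀ j ∈ D, h j ∈ M ∧ Z j (h j)) card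
    ⟨W, mem_filter.2 ⟨mem_powerset.2 h1, f, Subset.rfl, h2, fun _ _ => rfl, h3⟩⟩
  obtain ⟨a, h, b, c, d, e⟩ := mem_filter.1 hD
  rw [mem_powerset] at a
  refine ⟨D, h, b, a, c, d, e, fun i i1 i2 g g1 g3 => by_contra fun g2 => ?_⟩
  have hu : ∀ j ∈ D, Function.update h i g j = h j := fun j hj =>
    Function.update_of_ne (fun e : j = i => i2 (e ▸ hj)) _ _
  have := hmax (insert i D) (mem_filter.2 ⟨mem_powerset.2 (insert_subset i1 a),
    Function.update h i g, b.trans (subset_insert _ _), by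
      rw [coe_insert, Set.injOn_insert (by simpa using i2)]
      refine ⟨c.congr fun j hj => (hu j hj).symm, ?_⟩
      rintro ⟨j, hj, e⟩
      rw [hu j hj, Function.update_self] at e
      exact g2 (mem_image.2 ⟨j, hj, e⟩), fun j hj => (hu j (b hj)).trans (d j hj),
    (forall_mem_insert _ _ _).2 ⟨by rw [Function.update_self]; exact ⟨g1, g3⟩,
      fun j hj => hu j hj ▸ e j hj⟩⟩)
  rw [card_insert_of_notMem i2] at this
  omega

/-- The number of goods of `M` with property `Q` that `k` owns. -/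
noncomputable def ct (M : Finset G) (A : G → N) (Q : G → Prop) (k : N) : ℕ :=
  #(M.filter fun g => A g = k ∧ Q g)

omit [Fintype N] in
theorem ct_zero {M : Finset G} {A : G → N} {Q : G → Prop} (h : ∀ g ∈ M, ¬ Q g) (k : N) :
    ct M A Q k = 0 := card_eq_zero.2 (filter_eq_empty_iff.2 fun g hg a => h g hg a.2)

omit [Fintype N] in
theorem glue {D : Finset N} {M : Finset G} {h : N → G} (h1 : Set.InjOn h D) (h2 : ∀ j ∈ D, h j ∈ M)
    (A' : G → N) : ∃ A : G → N, ∀ Q k, ct M A Q k =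
      ct (M \ D.image h) A' Q k + if k ∈ D ∧ Q (h k) then 1 else 0 := by
  let A : G → N := fun g => if e : ∃ k ∈ D, h k = g then e.choose else A' g
  have a1 : ∀ k ∈ D, A (h k) = k := fun k hk => by
    have e : ∃ j ∈ D, h j = h k := ⟨k, hk, rfl⟩
    simp only [A, dif_pos e]
    exact h1 e.choose_spec.1 hk e.choose_spec.2
  have a2 : ∀ g, g ∉ D.image h → A g = A' g := fun g hg => dif_neg fun e => hg (mem_image.2 e)
  refine ⟨A, fun Q k => ?_⟩
  have h3 : D.image h ⊆ M := image_subset_iff.2 h2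
  rw [ct, ct, ← sdiff_union_of_subset h3, filter_union, card_union_of_disjoint
    (disjoint_filter_filter sdiff_disjoint), sdiff_union_of_subset h3,
    filter_congr fun g hg => by rw [a2 g (mem_sdiff.1 hg).2]]
  congr 1
  split_ifs with e
  · refine card_eq_one.2 ⟨h k, eq_singleton_iff_unique_mem.2 ⟨mem_filter.2
      ⟨mem_image_of_mem _ e.1, a1 k e.1, e.2⟩, fun g hg => ?_⟩⟩
    obtain ⟨a, b, -⟩ := mem_filter.1 hg
    obtain ⟨j, hj, rfl⟩ := mem_image.1 a
    rw [← b, a1 j hj]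
  · refine card_eq_zero.2 (filter_eq_empty_iff.2 fun g a b => e ?_)
    obtain ⟨j, hj, rfl⟩ := mem_image.1 a
    rw [← b.1, a1 j hj]
    exact ⟨hj, b.2⟩

theorem rounds [Nonempty N] (hp : ∀ i, 2 ≤ p i) (hZ : ∀ i g, L i g → Z i g) (s : ℕ) :
    ∀ (M : Finset G) (t : N → ℕ), #M * (∑ j, p j + 1) + ∑ j, t j = s →
    (∀ k, 0 < t k → ∀ g ∈ M, ¬ L k g) →
    ∃ (A : G → N) (R T : N → ℕ), (∀ i, (∀ g ∈ M, ¬ Z i g) → R i = 0) ∧
      (∀ i k, ct M A (Z i) k ≤ R i) ∧ (∀ i, R i ≤ ct M A (Z i) i + T i + 1) ∧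
      (∀ i k, ct M A (Z i) k ≤ ct M A (L k) k ∨ ct M A (Z i) k + T k ≤ R i) ∧
      (∀ k, (∀ g ∈ M, ¬ L k g) → T k = t k) ∧
      (∀ i k, ct M A (L i) k ≤ ct M A (L i) i + 1 ∧ (ct M A (L i) k = ct M A (L i) i + 1 →
        T i = 0 ∧ ct M A (L k) k = ct M A (L i) k ∧ p i ≤ T k + 1)) ∧
      ∀ i, t i = 0 → 0 < T i → T i + 1 ≤ p i ∧ 0 < ct M A (L i) i ∧
        ∀ k, ct M A (L i) k = ct M A (L i) i → ct M A (L k) k = ct M A (L i) i ∧ T i ≤ T k := by
  induction s using Nat.strong_induction_on with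
  | _ s ih =>
  rintro M t rfl ht
  by_cases hM : ∀ i, ∀ g ∈ M, ¬ Z i g
  · have a : ∀ (A : G → N) i k, ct M A (Z i) k = 0 := fun A i => ct_zero (hM i)
    have b : ∀ (A : G → N) i k, ct M A (L i) k = 0 :=
      fun A i => ct_zero fun g c d => hM i g c (hZ i g d)
    exact ⟨fun _ => Classical.arbitrary N, fun _ => 0, t, fun _ _ => rfl, by simp [a], by simp,
      by simp [a], fun _ _ => rfl, by simp [b], fun i a b => by omega⟩
  simp only [not_forall, not_not] at hM
  obtain ⟨k0, g0, hg0, hk0⟩ := hM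
  have : Nonempty G := ⟨g0⟩
  let U : Finset N := univ.filter fun k => t k = 0
  have hU : ∀ k, k ∈ U ↔ t k = 0 := fun k => by simp [U]
  obtain ⟨W, f, τ, m1, m2, m3, m4, m6, m7⟩ := matching L p hp U M
  obtain ⟨D, h, d1, d2, d3, d4, d5', d6⟩ := extend Z m1 m2
    fun j hj => ⟨(m3 j hj).1, hZ _ _ (m3 j hj).2⟩
  have d5 : ∀ j ∈ D, h j ∈ M := fun j hj => (d5' j hj).1
  set M' := M \ D.image h with hM'
  have hout : ∀ k ∈ W, f k ∉ M' := fun k hk e =>
    (mem_sdiff.1 e).2 (mem_image.2 ⟨k, d1 hk, d4 k hk⟩)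
  have dead : ∀ k, k ∉ W ∨ 0 < τ k → ∀ g ∈ M', ¬ L k g := fun k hk g hg hL => by
    have hg' := (mem_sdiff.1 hg).1
    rcases hk with hk | hk
    · by_cases e : t k = 0
      · obtain ⟨j, a, rfl, -⟩ := m6 k ((hU k).2 e) hk g hg' hL
        exact hout j a hg
      · exact ht k (by omega) g hg' hL
    · obtain ⟨j, a, rfl, -⟩ := (m7 k hk).2 g hg' hL
      exact hout j a hg
  have own : ∀ k ∈ D, ∀ j ∈ W, f j = h k → j = k := fun k hk j hj e =>
    d3 (d1 hj) hk ((d4 j hj).trans e)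
  have hW0 : ∀ k ∈ W, t k = 0 := fun k hk => (hU k).1 (m1 hk)
  have hlt : #M' * (∑ j, p j + 1) + ∑ j, (t j - 1 + τ j) < #M * (∑ j, p j + 1) + ∑ j, t j := by
    rcases D.eq_empty_or_nonempty with e | e
    · have a : 0 < t k0 := Nat.pos_of_ne_zero fun a => by
        simpa [e] using d6 k0 ((hU k0).2 a) (by simp [e]) g0 hg0 hk0
      have b : ∀ j, τ j = 0 := fun j => m4 j fun c => by simpa [e] using d1 c
      exact add_lt_add_of_le_of_lt (Nat.mul_le_mul_right _ (card_le_card sdiff_subset))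
        (sum_lt_sum (fun j _ => by rw [b]; omega) ⟨k0, mem_univ _, by rw [b]; omega⟩)
    · have a := Nat.mul_le_mul_right (∑ j, p j + 1) (Nat.succ_le_of_lt
        (card_lt_card (sdiff_ssubset (image_subset_iff.2 d5) (e.image h))))
      have b : ∑ j, (t j - 1 + τ j) ≤ ∑ j, t j + ∑ j, p j := by
        rw [← sum_add_distrib]
        refine sum_le_sum fun j _ => ?_
        rcases Nat.eq_zero_or_pos (τ j) with c | c
        · omega
        · have := (m7 j c).1
          omega
      rw [Nat.succ_mul, ← hM'] at a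
      omega
  obtain ⟨A', R, T, iR, i0, i1, i2, i3, i4, i5⟩ := ih _ hlt M' (fun k => t k - 1 + τ k) rfl
    fun k hk => dead k (by
      by_cases e : k ∈ W
      · exact Or.inr (by have := hW0 k e; omega)
      · exact Or.inl e)
  obtain ⟨A, hA⟩ := glue d3 d5 A'
  rw [← hM'] at hA
  have c0 : ∀ i k, ct M A (Z i) k ≤ ct M' A' (Z i) k + 1 ∧
      (k ∉ D → ct M A (Z i) k = ct M' A' (Z i) k) := fun i k => by
    rw [hA]
    split_ifs with e
    · exact ⟨le_rfl, fun a => absurd e.1 a⟩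
    · exact ⟨by omega, fun _ => rfl⟩
  have c1 : ∀ k ∈ W, ct M A (L k) k = ct M' A' (L k) k + 1 := fun k hk => by
    rw [hA, if_pos ⟨d1 hk, d4 k hk ▸ (m3 k hk).2⟩]
  have c2 : ∀ i k, ct M A (L i) k ≤ ct M' A' (L i) k + 1 := fun i k => by
    rw [hA]
    split_ifs <;> omega
  have c3 : ∀ i k, ct M' A' (L i) k < ct M A (L i) k → k ∈ D ∧ L i (h k) := fun i k e => by
    rw [hA] at e
    by_contra a
    rw [if_neg a] at e
    omega
  have c4 : ∀ k, 0 < ct M' A' (L k) k → k ∈ W := fun k e => by_contra fun a => by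
    rw [ct_zero (dead k (Or.inl a))] at e
    omega
  have c5 : ∀ k, k ∉ W ∨ 0 < τ k → T k = t k - 1 + τ k := fun k e => i3 k (dead k e)
  have c6 : ∀ k, k ∉ D → t k = 0 → R k = 0 := fun k a b => iR k fun g hg e =>
    (mem_sdiff.1 hg).2 (d6 k ((hU k).2 b) a g (mem_sdiff.1 hg).1 e)
  have c7 : ∀ i, i ∉ W → ∀ k, ct M A (L i) k = 0 ∨ (t i = 0 ∧ ct M A (L i) k = 1 ∧ k ∈ W ∧
      0 < τ k ∧ p i ≤ τ k + 1) := fun i hi k => by
    have a := c2 i k
    have b := c3 i k
    rw [ct_zero (dead i (Or.inl hi))] at a b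
    refine (Nat.eq_zero_or_pos _).imp id fun e => ?_
    obtain ⟨b1, b2⟩ := b e
    have c : t i = 0 := by_contra fun c => ht i (by omega) _ (d5 k b1) b2
    obtain ⟨j, j1, j2, j3⟩ := m6 i ((hU i).2 c) hi _ (d5 k b1) b2
    obtain rfl := own k b1 j j1 j2
    exact ⟨c, by omega, j1, by have := hp i; omega, j3⟩
  have c8 : ∀ k ∈ W, 0 < τ k → ct M A (L k) k = 1 ∧ T k = τ k := fun k a b =>
    ⟨by rw [c1 k a, ct_zero (dead k (Or.inr b))], by rw [c5 k (Or.inr b), hW0 k a]; omega⟩
  refine ⟨A, fun i => if ∀ g ∈ M, ¬ Z i g then 0 else R i + 1, fun k => T k + min (t k) 1,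
    fun i hi => if_pos hi, fun i k => ?_, fun k => ?_, fun i k => ?_,
    fun k hk => ?_, fun i k => ?_, fun i a b => ?_⟩
  all_goals beta_reduce
  · have := i0 i k
    have := (c0 i k).1
    split_ifs with e
    · exact (ct_zero e k).le
    · omega
  · have := i1 k
    have a := c6 k
    split_ifs
    · omega
    by_cases e : k ∈ D
    · rw [hA, if_pos ⟨e, (d5' k e).2⟩]
      omega
    · have := a e
      rw [(c0 k k).2 e]
      omega
  · split_ifs with z
    · exact Or.inl ((ct_zero z k).trans_le (Nat.zero_le _))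
    have a := i2 i k
    have b := i0 i k
    obtain ⟨b1, b2⟩ := c0 i k
    by_cases e : k ∈ W
    · have := hW0 k e
      rw [c1 k e]
      omega
    · have c := c5 k (Or.inl e)
      rw [m4 k e] at c
      rw [ct_zero (dead k (Or.inl e))] at a
      by_cases e' : k ∈ D
      · have := (hU k).1 (d2 e')
        omega
      · have := b2 e'
        omega
  · have e : k ∉ W := fun e => hk _ (m3 k e).1 (m3 k e).2
    have c := c5 k (Or.inl e)
    rw [m4 k e] at c
    omega
  · by_cases e : i ∈ W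
    · obtain ⟨a, b⟩ := i4 i k
      have c := c2 i k
      have d := hW0 i e
      rw [c1 i e]
      refine ⟨by omega, fun q => ?_⟩
      obtain ⟨b1, b2, b3⟩ := b (by omega)
      have := c1 k (c4 k (by omega))
      omega
    · have a : ct M A (L i) i = 0 := (c7 i e i).resolve_right fun a => e a.2.2.1
      have c := c5 i (Or.inl e)
      rw [m4 i e] at c
      rcases c7 i e k with b | ⟨b1, b2, b3, b4, b5⟩
      · omega
      · have := c8 k b3 b4
        omega
  · beta_reduce at b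
    have e : i ∈ W := by_contra fun e => by
      have c := c5 i (Or.inl e)
      rw [m4 i e] at c
      omega
    rcases Nat.eq_zero_or_pos (τ i) with z | z
    · obtain ⟨b1, b2, b3⟩ := i5 i (by omega) (by omega)
      rw [c1 i e]
      refine ⟨by omega, by omega, fun k q => ?_⟩
      have c := c2 i k
      obtain ⟨a1, a2⟩ := i4 i k
      have q' : ct M' A' (L i) k = ct M' A' (L i) i := by
        by_contra q'
        have := (a2 (by omega)).1
        omega
      obtain ⟨b4, b5⟩ := b3 k q'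
      have := c1 k (c4 k (by omega))
      omega
    · obtain ⟨b1, b2⟩ := c8 i e z
      obtain ⟨b3, b4⟩ := m7 i z
      refine ⟨by omega, by omega, fun k q => ?_⟩
      obtain ⟨k1, k2⟩ := c3 i k (by rw [ct_zero (dead i (Or.inr z))]; omega)
      obtain ⟨j, j1, j2, j3⟩ := b4 _ (d5 k k1) k2
      obtain rfl := own k k1 j j1 j2
      have := c8 j j1 (by omega)
      omega

omit [Fintype N] in
theorem ct_add (M : Finset G) (A : G → N) {Q Q' : G → Prop} (h : ∀ g, Q g → Q' g) (k : N) :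
    ct M A Q k + ct M A (fun g => Q' g ∧ ¬ Q g) k = ct M A Q' k := by
  simp only [ct, card_filter, ← sum_add_distrib]
  refine sum_congr rfl fun g _ => ?_
  have := h g
  by_cases a : A g = k <;> by_cases b : Q g <;> by_cases c : Q' g <;> simp_all

/-- An allocation with a weight certificate for each agent. -/
theorem exists_cert [Fintype G] [Nonempty N] (hp : ∀ i, 2 ≤ p i) (hZ : ∀ i g, L i g → Z i g) :
    ∃ A : G → N, ∀ i, ∃ w : ℕ,
    w ≤ p i ∧ (w = p i ∨ w = ct univ A (fun g => Z i g ∧ ¬ L i g) i + 1) ∧ ∀ k,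
      w * ct univ A (L i) k + ct univ A (fun g => Z i g ∧ ¬ L i g) k ≤
        w * ct univ A (L i) i + ct univ A (fun g => Z i g ∧ ¬ L i g) i + 1 := by
  obtain ⟨A, R, T, -, i0, i1, i2, -, i4, i5⟩ := rounds L Z p hp hZ _ (univ : Finset G)
    (fun _ => 0) rfl fun _ h => absurd h (lt_irrefl 0)
  refine ⟨A, fun i => ?_⟩
  have a1 := i1 i
  have a2 := ct_add univ A (hZ i) i
  have a3 := hp i
  rcases Nat.eq_zero_or_pos (T i) with z | z
  · refine ⟨min (p i) (ct univ A (fun g => Z i g ∧ ¬ L i g) i + 1), min_le_left _ _,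
      min_choice _ _, fun k => ?_⟩
    obtain ⟨b1, b2⟩ := i4 i k
    have b3 := ct_add univ A (hZ i) k
    have b4 := i0 i k
    have b5 := i2 i k
    generalize hw : min (p i) (ct univ A (fun g => Z i g ∧ ¬ L i g) i + 1) = w
    rcases b1.eq_or_lt with e | e
    · obtain ⟨-, c1, c2⟩ := b2 e
      rw [e, mul_add]
      omega
    · obtain ⟨u, hu⟩ := Nat.exists_eq_add_of_le (Nat.le_of_lt_succ e)
      have c1 : 1 * u ≤ w * u := Nat.mul_le_mul_right _ (by omega)
      rw [hu, mul_add]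
      omega
  · refine ⟨p i, le_rfl, Or.inl rfl, fun k => ?_⟩
    obtain ⟨b1, b2⟩ := i4 i k
    obtain ⟨c1, -, c2⟩ := i5 i rfl z
    have b3 := ct_add univ A (hZ i) k
    have b4 := i0 i k
    have b5 := i2 i k
    have b6 : ct univ A (L i) k ≤ ct univ A (L i) i := by
      by_contra e
      have := (b2 (by omega)).1
      omega
    rcases b6.eq_or_lt with e | e
    · obtain ⟨c3, c4⟩ := c2 k e
      rw [e]
      omega
    · obtain ⟨u, hu⟩ := Nat.exists_eq_add_of_lt e
      have c3 : 1 * u ≤ p i * u := Nat.mul_le_mul_right _ (by omega)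
      rw [hu, mul_add, mul_add]
      omega

end Pool.Agent.Lib.MP_7939ee_co.H90
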