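import Pool.Agent.Lib.MP_7939ee_co.Defs
import Pool.Agent.Lib.MP_7939ee_co.H90Freeze

/-!
Exact groupwise maximin shares when the values of each agent are `0`, `b` and a multiple of `b`.
-/

namespace Pool.Agent.Lib.MP_7939ee_co.H90

open Finset
open scoped Classical

theorem sum_wt {G : Type} (L Z : G → Prop) (w : ℕ) (X : Finset G) :
    ∑ g ∈ X, (if L g then w else if Z g then 1 else 0) =
      w * #(X.filter L) + #(X.filter fun g => Z g ∧ ¬ L g) := by
  rw [card_filter, card_filter, mul_sum, ← sum_add_distrib]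
  refine sum_congr rfl fun g _ => ?_
  by_cases a : L g <;> by_cases b : Z g <;> simp [a, b]

theorem exact_gmms {n m : ℕ} (hn : 0 < n) (v : Fin n → Fin m → ℝ)
    (hv : ∀ i, ∃ (b : ℝ) (q : ℕ), 0 ≤ b ∧ ∀ g, v i g = 0 ∨ v i g = b ∨ v i g = q * b) :
    ∃ A : Fin m → Fin n, IsGMMS 1 v A := by
  have : Nonempty (Fin n) := ⟨⟨0, hn⟩⟩
  choose b q hb hv using hv
  obtain ⟨L, hL⟩ : ∃ L : Fin n → Fin m → Prop, ∀ i g, L i g ↔ v i g ≠ 0 ∧ v i g ≠ b i :=
    ⟨_, fun _ _ => Iff.rfl⟩
  obtain ⟨Z, hZ⟩ : ∃ Z : Fin n → Fin m → Prop, ∀ i g, Z i g ↔ v i g ≠ 0 := ⟨_, fun _ _ => Iff.rfl⟩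
  obtain ⟨A, hA⟩ := exists_cert L Z (fun i => max (q i) 2) (fun _ => le_max_right _ _)
    fun i g h => (hZ i g).2 ((hL i g).1 h).1
  refine ⟨A, fun i => ?_⟩
  rw [one_mul]
  have : Nonempty {S : Finset (Fin n) // i ∈ S} := ⟨⟨univ, mem_univ _⟩⟩
  refine ciSup_le fun S => ?_
  have : Nonempty (Fin S.1.card) := ⟨⟨0, card_pos.2 ⟨i, S.2⟩⟩⟩
  refine ciSup_le fun B => le_of_not_gt fun hlt => ?_
  obtain ⟨w, w1, w2, w3⟩ := hA i
  have h0 : ∀ g, v i g =
      b i * ((if L i g then max (q i) 2 else if Z i g then 1 else 0 : ℕ) : ℝ) := fun g => by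
    split_ifs with a c
    · obtain ⟨a1, a2⟩ := (hL i g).1 a
      have e := ((hv i g).resolve_left a1).resolve_left a2
      have h : 2 ≤ q i := by
        by_contra h
        have h' : q i = 0 ∨ q i = 1 := by omega
        rcases h' with h' | h' <;> simp [h'] at e <;> contradiction
      rw [max_eq_left h, e, mul_comm]
    · simpa using not_not.1 fun e => a ((hL i g).2 ⟨(hZ i g).1 c, e⟩)
    · simpa using not_not.1 fun e => c ((hZ i g).2 e)
  let f : Fin m → ℕ := fun g => if L i g then w else if Z i g then 1 else 0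
  have hf : ∀ X : Finset (Fin m), ∑ g ∈ X, f g = _ := sum_wt (L i) (Z i) w
  have hc : ∀ k, ct univ A (L i) k = #((bundle A k).filter (L i)) := fun k => by
    rw [ct, bundle, filter_filter]
    congr
  have hc' : ∀ k, ct univ A (fun g => Z i g ∧ ¬ L i g) k =
      #((bundle A k).filter fun g => Z i g ∧ ¬ L i g) := fun k => by
    rw [ct, bundle, filter_filter]
    congr
  simp only [hc, hc', ← hf] at w2 w3
  have h1 : ∀ j, ∑ g ∈ bundle A i, f g + 1 ≤
      ∑ g ∈ (S.1.biUnion (bundle A)).filter fun g => B g = j, f g := fun j => by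
    have h3 := hlt.trans_le (ciInf_le (Finite.bddBelow_range _) j)
    simp only [h0, ← mul_sum, ← Nat.cast_sum, sum_wt] at h3
    have h2 := Nat.cast_lt.1 (lt_of_mul_lt_mul_left h3 (hb i))
    rw [hf, hf]
    generalize #(((S.1.biUnion (bundle A)).filter fun g => B g = j).filter (L i)) = x at h2 ⊢
    generalize #((bundle A i).filter (L i)) = c at h2 ⊢
    rcases w2 with rfl | w2
    · exact h2
    rcases le_or_gt x c with e | e
    · obtain ⟨u, rfl⟩ := Nat.exists_eq_add_of_le e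
      have := Nat.mul_le_mul_right u w1
      rw [mul_add] at h2 ⊢
      omega
    · have := Nat.mul_le_mul_left w (Nat.succ_le_of_lt e)
      rw [Nat.mul_succ] at this
      omega
  have h2 := sum_le_sum fun j (_ : j ∈ univ) => h1 j
  have h4 : (S.1 : Set (Fin n)).PairwiseDisjoint (bundle A) := fun a _ b _ e =>
    disjoint_filter.2 fun g _ k k' => e (k.symm.trans k')
  rw [sum_fiberwise, sum_biUnion h4, sum_const, card_univ, Fintype.card_fin] at h2
  have h3 := sum_lt_sum (s := S.1) (fun k _ => w3 k) ⟨i, S.2, Nat.lt_succ_self _⟩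
  rw [sum_const] at h3
  exact absurd h2 (not_le.2 h3)

end Pool.Agent.Lib.MP_7939ee_co.H90
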