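import Pool.Agent.Lib.MP_7939ee_co.Weight
import Pool.Agent.Lib.MP_7939ee_co.Draft

/-!
Envy cycle elimination after the draft, and the groupwise guarantee.
-/

namespace Pool.Agent.Lib.MP_7939ee_co

open Finset

variable {ι G : Type*} [Fintype ι] [DecidableEq ι] [Fintype G] [DecidableEq G]

/-- The invariant kept from the draft to the end of envy cycle elimination. -/
structure Inv (ρ : ℝ) (v : ι → G → ℝ) (x y : ι → ℝ) (X : ι → Finset G) : Prop where
  disj : ∀ i j, i ≠ j → Disjoint (X i) (X j)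
  both : ∀ i, x i + y i ≤ ∑ g ∈ X i, v i g
  last : ∀ i, y i ≤ (ρ - 1) * ∑ g ∈ X i, v i g
  pool : ∀ i g, (∀ j, g ∉ X j) → v i g ≤ y i
  light : ∀ i j, Light (v i) (x i) (∑ g ∈ X i, v i g + y i) (ρ * ∑ g ∈ X i, v i g) (X j)

theorem exists_seed {ρ : ℝ} (hρ : 3 / 2 ≤ ρ) (hρ2 : ρ ≤ 2) (hρ' : ρ + 1 ≤ ρ ^ 2) (v : ι → G → ℝ)
    (hv : ∀ i g, 0 ≤ v i g) [Nonempty G] (hcard : 2 * Fintype.card ι ≤ Fintype.card G) :
    ∃ x y X, (∀ i, 0 ≤ y i) ∧ Inv ρ v x y X := by
  obtain ⟨L, R, f, t, h, hLR⟩ := exists_firstRound (ρ := ρ) (by linarith) v hv (by omega)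
  have hun : L ∪ R = univ := eq_univ_of_forall fun i => mem_union.2 (hLR i)
  have hR : ∀ i, i ∉ L → i ∈ R := fun i hi => (hLR i).resolve_left hi
  have hf : Function.Injective f := fun i j e =>
    h.inj (by rw [hun]; simp) (by rw [hun]; simp) e
  obtain ⟨s, hs1, hs2, hs3⟩ := exists_serial v t (univ \ (L ∪ R).image f) R (by
    rw [card_univ_sdiff]
    have h1 : ((L ∪ R).image f).card ≤ (L ∪ R).card := card_image_le
    have h2 := card_le_univ (L ∪ R)
    have h3 := card_le_univ R
    omega)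
  have hsf : ∀ i ∈ R, s i ∉ (L ∪ R).image f := fun i hi => (mem_sdiff.1 (hs2 i hi)).2
  have hsf' : ∀ i ∈ R, ∀ j, f j ≠ s i := fun i hi j e =>
    hsf i hi (mem_image.2 ⟨j, by rw [hun]; simp, e⟩)
  have hdiv : ∀ a b : ℝ, 0 ≤ b → ρ * a ≤ b → a ≤ (ρ - 1) * b := by
    intro a b hb hab
    by_contra hc
    push Not at hc
    nlinarith
  let X : ι → Finset G := fun i => if i ∈ L then {f i} else {f i, s i}
  have hXL : ∀ i ∈ L, X i = {f i} := fun i hi => if_pos hi
  have hXR : ∀ i, i ∉ L → X i = {f i, s i} := fun i hi => if_neg hi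
  have hsum : ∀ i j, j ∉ L → ∑ g ∈ X j, v i g = v i (f j) + v i (s j) := fun i j hj => by
    rw [hXR j hj, sum_pair (hsf' j (hR j hj) j)]
  have hsumL : ∀ i, ∀ j ∈ L, ∑ g ∈ X j, v i g = v i (f j) := fun i j hj => by
    rw [hXL j hj, sum_singleton]
  have hcard2 : ∀ j, j ∉ L → (X j).card ≤ 2 := fun j hj => by
    rw [hXR j hj]
    exact card_le_two
  have hpool : ∀ g, (∀ j, g ∉ X j) → g ∉ (L ∪ R).image f := by
    intro g hg hg'
    obtain ⟨j, -, rfl⟩ := mem_image.1 hg'
    refine hg j ?_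
    by_cases hj : j ∈ L
    · simp [hXL j hj]
    · simp [hXR j hj]
  refine ⟨fun i => if i ∈ L then 0 else v i (f i),
    fun i => if i ∈ L then (ρ - 1) * v i (f i) else v i (s i), X, ?_, ?_, ?_, ?_, ?_, ?_⟩
  · intro i
    dsimp only
    split_ifs
    · exact mul_nonneg (by linarith) (hv _ _)
    · exact hv _ _
  · intro i j hij
    have h1 : f i ≠ f j := fun e => hij (hf e)
    by_cases hi : i ∈ L <;> by_cases hj : j ∈ L
    · simp [hXL i hi, hXL j hj, h1]
    · simp [hXL i hi, hXR j hj, h1, hsf' j (hR j hj) i]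
    · simp [hXR i hi, hXL j hj, h1.symm, hsf' i (hR i hi) j]
    · have h2 : s i ≠ s j := fun e => hij (hs1 (hR i hi) (hR j hj) e)
      simp [hXR i hi, hXR j hj, h1.symm, h2.symm, hsf' i (hR i hi) j, (hsf' j (hR j hj) i).symm]
  · intro i
    by_cases hi : i ∈ L
    · simp only [if_pos hi, hsumL i i hi]
      nlinarith [hv i (f i)]
    · simp only [if_neg hi, hsum i i hi, le_refl]
  · intro i
    by_cases hi : i ∈ L
    · simp only [if_pos hi, hsumL i i hi, le_refl]
    · simp only [if_neg hi, hsum i i hi]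
      have h1 := h.freeR i (hR i hi) _ (hsf i (hR i hi))
      nlinarith [hv i (s i)]
  · intro i g hg
    by_cases hi : i ∈ L
    · simp only [if_pos hi]
      exact hdiv _ _ (hv _ _) (h.freeL i hi g (hpool g hg))
    · simp only [if_neg hi]
      refine hs3 i (hR i hi) g (mem_sdiff.2 ⟨mem_univ _, hpool g hg⟩) fun j hj _ _ e => hg j ?_
      have hjL : j ∉ L := fun hj' => disjoint_left.1 h.disj hj' hj
      simp [hXR j hjL, e]
  · intro i j
    by_cases hj : j ∈ L
    · exact Or.inl (by simp [hXL j hj])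
    refine Or.inr (Or.inl ⟨hcard2 j hj, ?_⟩)
    by_cases hi : i ∈ L
    · left
      rw [hsum i j hj, hsumL i i hi]
      have h1 := h.heldL i hi j (hR j hj)
      have h2 := hdiv _ _ (hv _ _) (h.freeL i hi _ (hsf j (hR j hj)))
      linarith
    · by_cases hij : t i ≤ t j
      · right
        simp only [if_neg hi, hXR j hj, mem_insert, mem_singleton]
        rintro g (rfl | rfl)
        · exact h.later i (hR i hi) j (hR j hj) hij
        · exact h.freeR i (hR i hi) _ (hsf j (hR j hj))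
      · left
        rw [hsum i j hj, hsum i i hi]
        have h1 := h.heldR i (hR i hi) j (hR j hj)
        have h2 := hs3 i (hR i hi) _ (hs2 j (hR j hj)) fun l hl hil _ e =>
          hij (by rw [← hs1 hl (hR j hj) e]; exact hil)
        nlinarith [hv i (s i)]

theorem Inv.complete {ρ : ℝ} (hρ : 1 ≤ ρ) {v : ι → G → ℝ} (hv : ∀ i g, 0 ≤ v i g) [Nonempty ι]
    {x y : ι → ℝ} {X₀ : ι → Finset G} (h₀ : Inv ρ v x y X₀) :
    ∃ X, Inv ρ v x y X ∧ ∀ g, ∃ j, g ∈ X j := by
  classical
  obtain ⟨X, hX, hmax⟩ := exists_max_image (univ.filter (Inv ρ v x y))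
    (fun X => toLex (∑ i, (X i).card, ∑ i, ∑ g ∈ X i, v i g)) ⟨X₀, by simpa using h₀⟩
  have h : Inv ρ v x y X := (mem_filter.1 hX).2
  refine ⟨X, h, fun c => ?_⟩
  by_contra hc
  push Not at hc
  have step : ∀ Y : ι → Finset G, (∀ i j, i ≠ j → Disjoint (Y i) (Y j)) →
      (∀ i, ∑ g ∈ X i, v i g ≤ ∑ g ∈ Y i, v i g) → (∀ g, (∀ j, g ∉ Y j) → ∀ j, g ∉ X j) →
      (∀ j, (∃ l, Y j = X l) ∨ ∀ i, ∑ g ∈ Y j, v i g ≤ ∑ g ∈ X i, v i g + y i) →
      Inv ρ v x y Y := by
    intro Y h1 h2 h3 h4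
    refine ⟨h1, fun i => (h.both i).trans (h2 i), fun i => (h.last i).trans
      (mul_le_mul_of_nonneg_left (h2 i) (by linarith)), fun i g hg => h.pool i g (h3 g hg),
      fun i j => ?_⟩
    rcases h4 j with ⟨l, hl⟩ | hl
    · rw [hl]
      exact (h.light i l).mono (by linarith [h2 i])
        (mul_le_mul_of_nonneg_left (h2 i) (by linarith))
    · exact Or.inr (Or.inr ((hl i).trans (by linarith [h2 i])))
  by_cases hsrc : ∃ a, ∀ i, ∑ g ∈ X a, v i g ≤ ∑ g ∈ X i, v i g
  · obtain ⟨a, ha⟩ := hsrc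
    have hne : ∀ j, j ≠ a → Function.update X a (insert c (X a)) j = X j := fun j hj =>
      Function.update_of_ne hj _ _
    have hsub : ∀ j, X j ⊆ Function.update X a (insert c (X a)) j := by
      intro j
      by_cases hj : j = a
      · rw [hj, Function.update_self]
        exact subset_insert _ _
      · rw [hne j hj]
    have hY := step (Function.update X a (insert c (X a))) (by
      intro i j hij
      by_cases hi : i = a <;> by_cases hj : j = a
      · exact absurd (hi.trans hj.symm) hij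
      · rw [hi, Function.update_self, hne j hj]
        exact disjoint_insert_left.2 ⟨hc j, h.disj a j (Ne.symm hj)⟩
      · rw [hj, Function.update_self, hne i hi]
        exact disjoint_insert_right.2 ⟨hc i, h.disj i a hi⟩
      · rw [hne i hi, hne j hj]
        exact h.disj i j hij)
      (fun i => sum_le_sum_of_subset_of_nonneg (hsub i) fun g _ _ => hv i g)
      (fun g hg j hj => hg j (hsub j hj)) (by
      intro j
      by_cases hj : j = a
      · right
        intro i
        rw [hj, Function.update_self, sum_insert (hc a)]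
        linarith [ha i, h.pool i c hc]
      · exact Or.inl ⟨j, hne j hj⟩)
    have h1 := hmax _ (mem_filter.2 ⟨mem_univ _, hY⟩)
    have h2 : ∑ i, (X i).card < ∑ i, (Function.update X a (insert c (X a)) i).card :=
      sum_lt_sum (fun i _ => card_le_card (hsub i)) ⟨a, mem_univ _, by
        rw [Function.update_self, card_insert_of_notMem (hc a)]
        omega⟩
    rw [Prod.Lex.toLex_le_toLex] at h1
    dsimp only at h1
    omega
  · push Not at hsrc
    choose e he using hsrc
    let τ : ι → ι := fun j => if j ∈ Function.periodicPts e then e j else j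
    have hτ : Function.Bijective τ := by
      refine Finite.injective_iff_bijective.1 fun i j hij => ?_
      by_cases hi : i ∈ Function.periodicPts e <;> by_cases hj : j ∈ Function.periodicPts e
      · simp only [τ, if_pos hi, if_pos hj] at hij
        exact (Function.bijOn_periodicPts e).injOn hi hj hij
      · simp only [τ, if_pos hi, if_neg hj] at hij
        exact absurd (hij ▸ (Function.bijOn_periodicPts e).mapsTo hi) hj
      · simp only [τ, if_neg hi, if_pos hj] at hij
        exact absurd (hij ▸ (Function.bijOn_periodicPts e).mapsTo hj) hi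
      · simpa only [τ, if_neg hi, if_neg hj] using hij
    let σ : ι ≃ ι := Equiv.ofBijective τ hτ
    have hle : ∀ j, ∑ g ∈ X (σ j), v (σ j) g ≤ ∑ g ∈ X j, v (σ j) g := by
      intro j
      change ∑ g ∈ X (τ j), v (τ j) g ≤ ∑ g ∈ X j, v (τ j) g
      by_cases hj : j ∈ Function.periodicPts e
      · simp only [τ, if_pos hj]
        exact (he j).le
      · simp only [τ, if_neg hj, le_refl]
    have hle' : ∀ i, ∑ g ∈ X i, v i g ≤ ∑ g ∈ X (σ.symm i), v i g := fun i => by
      simpa only [Equiv.apply_symm_apply] using hle (σ.symm i)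
    have hY := step (fun i => X (σ.symm i))
      (fun i j hij => h.disj _ _ fun e' => hij (σ.symm.injective e')) hle'
      (fun g hg j hj => hg (σ j) (by simpa only [Equiv.symm_apply_apply] using hj))
      (fun j => Or.inl ⟨_, rfl⟩)
    have h1 := hmax _ (mem_filter.2 ⟨mem_univ _, hY⟩)
    obtain ⟨a, ha⟩ : (Function.periodicPts e).Nonempty := by
      obtain ⟨m, n, hmn, hmn'⟩ :=
        Finite.exists_ne_map_eq_of_infinite fun n : ℕ => e^[n] (Classical.arbitrary ι)
      wlog hlt : m < n generalizing m n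
      · exact this n m hmn.symm hmn'.symm (by omega)
      refine ⟨e^[m] (Classical.arbitrary ι), Function.mk_mem_periodicPts (n := n - m) (by omega) ?_⟩
      rw [Function.IsPeriodicPt, Function.IsFixedPt, ← Function.iterate_add_apply,
        Nat.sub_add_cancel hlt.le, hmn']
    have h2 : ∑ i, ∑ g ∈ X i, v i g < ∑ i, ∑ g ∈ X (σ.symm i), v i g :=
      sum_lt_sum (fun i _ => hle' i) ⟨σ a, mem_univ _, by
        rw [Equiv.symm_apply_apply]
        change ∑ g ∈ X (τ a), v (τ a) g < ∑ g ∈ X a, v (τ a) g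
        simp only [τ, if_pos ha]
        exact he a⟩
    have h3 : ∑ i, (X (σ.symm i)).card = ∑ i, (X i).card :=
      Equiv.sum_comp σ.symm fun i => (X i).card
    rw [Prod.Lex.toLex_le_toLex] at h1
    dsimp only at h1
    rcases h1 with h1 | ⟨-, h1⟩
    · omega
    · linarith

/-- With at least twice as many goods as agents there is a complete allocation in which every
division of the goods of a group has a part worth at most `ρ` times the share of a member. -/
theorem exists_alloc_large {ρ : ℝ} (hρ : 3 / 2 ≤ ρ) (hρ2 : ρ ≤ 2) (hρ' : ρ + 1 ≤ ρ ^ 2)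
    (v : ι → G → ℝ) (hv : ∀ i g, 0 ≤ v i g) [Nonempty ι]
    (hcard : 2 * Fintype.card ι ≤ Fintype.card G) :
    ∃ X : ι → Finset G, (∀ i j, i ≠ j → Disjoint (X i) (X j)) ∧ (∀ g, ∃ j, g ∈ X j) ∧
      ∀ i, ∀ S : Finset ι, i ∈ S → ∀ p : G → Fin S.card,
        ∃ j, ∑ g ∈ (S.biUnion X).filter fun g => p g = j, v i g ≤ ρ * ∑ g ∈ X i, v i g := by
  have : Nonempty G := Fintype.card_pos_iff.1 (by
    have := Fintype.card_pos (α := ι)
    omega)
  obtain ⟨x, y, X₀, hy, h₀⟩ := exists_seed hρ hρ2 hρ' v hv hcard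
  obtain ⟨X, h, hall⟩ := h₀.complete (by linarith) hv
  refine ⟨X, h.disj, hall, fun i S hi p => ?_⟩
  have : Nonempty (Fin S.card) := ⟨⟨0, card_pos.2 ⟨i, hi⟩⟩⟩
  obtain ⟨j, -, hj⟩ := exists_min_image univ
    (fun j => ∑ g ∈ (S.biUnion X).filter fun g => p g = j, v i g) univ_nonempty
  refine ⟨j, ?_⟩
  by_contra hcon
  push Not at hcon
  set R := ∑ g ∈ (S.biUnion X).filter fun g => p g = j, v i g with hR
  have hval : 0 ≤ ∑ g ∈ X i, v i g := sum_nonneg fun g _ => hv i g
  have h1 := h.both i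
  have h2 := h.last i
  have h3 := hy i
  have h4 : ∑ g ∈ X i, v i g + y i < min R (2 * (R - x i)) :=
    lt_min (by linarith) (by nlinarith)
  obtain ⟨l, hl⟩ := exists_part_lt (D := min R (2 * (R - x i))) (R := R) (x := x i) (hv i)
    (by linarith) (min_le_left _ _) (min_le_right _ _) X h.disj S hi
    (fun l _ => (h.light i l).mono h4.le hcon.le) (by linarith) p
  exact absurd (hj l (mem_univ _)) (not_le.2 hl)

/-- The same guarantee for any number of goods, by adding worthless goods. -/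
theorem exists_alloc {ρ : ℝ} (hρ : 3 / 2 ≤ ρ) (hρ2 : ρ ≤ 2) (hρ' : ρ + 1 ≤ ρ ^ 2)
    (v : ι → G → ℝ) (hv : ∀ i g, 0 ≤ v i g) [Nonempty ι] :
    ∃ A : G → ι, ∀ i, ∀ S : Finset ι, i ∈ S → ∀ p : G → Fin S.card,
      ∃ j, ∑ g ∈ (univ.filter fun g => A g ∈ S).filter fun g => p g = j, v i g ≤
        ρ * ∑ g ∈ univ.filter fun g => A g = i, v i g := by
  obtain ⟨X, hd, hall, h⟩ := exists_alloc_large (G := G ⊕ Fin (2 * Fintype.card ι)) hρ hρ2 hρ'
    (fun i => Sum.elim (v i) fun _ => 0) (by rintro i (g | g) <;> simp [hv]) (by simp)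
  choose A hA using hall
  have hiff : ∀ g j, g ∈ X j ↔ A g = j := fun g j =>
    ⟨fun hg => by
      by_contra hne
      exact disjoint_left.1 (hd _ _ hne) (hA g) hg, fun e => e ▸ hA g⟩
  have key : ∀ (i : ι) (T : Finset (G ⊕ Fin (2 * Fintype.card ι))),
      ∑ g ∈ T, Sum.elim (v i) (fun _ => 0) g = ∑ g ∈ T.toLeft, v i g := by
    intro i T
    rw [sum_sum_eq_sum_toLeft_add_sum_toRight]
    simp
  refine ⟨fun g => A (Sum.inl g), fun i S hi p => ?_⟩
  obtain ⟨j, hj⟩ := h i S hi (Sum.elim p fun _ => ⟨0, card_pos.2 ⟨i, hi⟩⟩)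
  refine ⟨j, ?_⟩
  rw [key, key] at hj
  convert hj using 2
  · ext g
    simp [hiff]
  · congr 1
    ext g
    simp [hiff]

end Pool.Agent.Lib.MP_7939ee_co
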