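import Mathlib

/-!
A capped weight function: every set of goods of value at least `R` has weight at least `D`.
-/

namespace Pool.Agent.Lib.MP_7939ee_co

open Finset

/-- The weight of a good of value `s`. -/
noncomputable def wt (D R s : ℝ) : ℝ := min D (max (min s (D / 2)) (s - (R - D)))

variable {D R x s : ℝ}

lemma wt_le_cap : wt D R s ≤ D := min_le_left _ _

lemma wt_nonneg (hD : 0 ≤ D) (hs : 0 ≤ s) : 0 ≤ wt D R s :=
  le_min hD (le_max_of_le_left (le_min hs (by linarith)))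

lemma wt_le_self (hDR : D ≤ R) : wt D R s ≤ s :=
  (min_le_right _ _).trans (max_le (min_le_left _ _) (by linarith))

lemma le_wt_small (hD : 0 ≤ D) (hs : s ≤ D / 2) : s ≤ wt D R s :=
  le_min (by linarith) (le_max_of_le_left (le_min le_rfl hs))

lemma half_le_wt (hD : 0 ≤ D) (hs : D / 2 ≤ s) : D / 2 ≤ wt D R s :=
  le_min (by linarith) (le_max_of_le_left (le_min hs le_rfl))

lemma wt_le_half (hx : D ≤ 2 * (R - x)) (hs : s ≤ x) : wt D R s ≤ D / 2 :=
  (min_le_right _ _).trans (max_le (min_le_right _ _) (by linarith))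

lemma wt_cases : wt D R s ≤ D / 2 ∨ wt D R s ≤ s - (R - D) := by
  rcases le_total (min s (D / 2)) (s - (R - D)) with h | h
  · exact Or.inr ((min_le_right _ _).trans (max_le h le_rfl))
  · exact Or.inl ((min_le_right _ _).trans (max_le (min_le_right _ _) (h.trans (min_le_right _ _))))

lemma wt_big : D ≤ wt D R s ∨ s - (R - D) ≤ wt D R s := by
  rcases le_total D (s - (R - D)) with h | h
  · exact Or.inl (le_min le_rfl (le_max_of_le_right h))
  · exact Or.inr (le_min h (le_max_right _ _))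

variable {G : Type*} [DecidableEq G] {w : G → ℝ}

lemma part_ge (hw : ∀ g, 0 ≤ w g) (hD : 0 ≤ D) (hDR : D ≤ R) {B : Finset G}
    (hB : R ≤ ∑ g ∈ B, w g) : D ≤ ∑ g ∈ B, wt D R (w g) := by
  by_cases h : ∀ g ∈ B, w g ≤ D / 2
  · exact hDR.trans (hB.trans (sum_le_sum fun g hg => le_wt_small hD (h g hg)))
  push Not at h
  obtain ⟨a, ha, ha'⟩ := h
  rw [← add_sum_erase _ _ ha] at hB ⊢
  have h0 : 0 ≤ ∑ g ∈ B.erase a, wt D R (w g) := sum_nonneg fun g _ => wt_nonneg hD (hw g)
  by_cases h : ∀ g ∈ B.erase a, w g ≤ D / 2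
  · have h1 : ∑ g ∈ B.erase a, w g ≤ ∑ g ∈ B.erase a, wt D R (w g) :=
      sum_le_sum fun g hg => le_wt_small hD (h g hg)
    rcases wt_big (D := D) (R := R) (s := w a) with h2 | h2 <;> linarith
  push Not at h
  obtain ⟨b, hb, hb'⟩ := h
  have h1 : wt D R (w b) ≤ ∑ g ∈ B.erase a, wt D R (w g) :=
    single_le_sum (f := fun g => wt D R (w g)) (fun g _ => wt_nonneg hD (hw g)) hb
  have h2 := half_le_wt (R := R) hD ha'.le
  have h3 := half_le_wt (R := R) hD hb'.le
  linarith

/-- Bundles whose weight is at most the cap. -/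
def Light (w : G → ℝ) (x D R : ℝ) (B : Finset G) : Prop :=
  B.card ≤ 1 ∨ (B.card ≤ 2 ∧ (∑ g ∈ B, w g ≤ R ∨ ∀ g ∈ B, w g ≤ x)) ∨ ∑ g ∈ B, w g ≤ D

omit [DecidableEq G] in
lemma Light.mono {D' R' : ℝ} {B : Finset G} (h : Light w x D R B) (hD : D ≤ D') (hR : R ≤ R') :
    Light w x D' R' B := by
  rcases h with h | ⟨h, h' | h'⟩ | h
  · exact Or.inl h
  · exact Or.inr (Or.inl ⟨h, Or.inl (h'.trans hR)⟩)
  · exact Or.inr (Or.inl ⟨h, Or.inr h'⟩)
  · exact Or.inr (Or.inr (h.trans hD))

lemma Light.wt_le (hD : 0 ≤ D) (hDR : D ≤ R) (hx : D ≤ 2 * (R - x)) {B : Finset G}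
    (h : Light w x D R B) : ∑ g ∈ B, wt D R (w g) ≤ D := by
  have one : B.card ≤ 1 → ∑ g ∈ B, wt D R (w g) ≤ D := by
    intro h
    rcases Nat.lt_or_ge B.card 1 with h1 | h1
    · have : B = ∅ := card_eq_zero.1 (by omega)
      simp [this, hD]
    · obtain ⟨a, ha⟩ := card_eq_one.1 (le_antisymm h h1)
      simp [ha, wt_le_cap]
  rcases h with h | ⟨h, h'⟩ | h
  · exact one h
  · rcases Nat.lt_or_ge B.card 2 with h2 | h2
    · exact one (by omega)
    obtain ⟨a, b, hab, rfl⟩ := card_eq_two.1 (le_antisymm h h2)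
    rw [sum_pair hab]
    rcases h' with h' | h'
    · rw [sum_pair hab] at h'
      have ha := wt_le_self (s := w a) hDR
      have hb := wt_le_self (s := w b) hDR
      rcases wt_cases (D := D) (R := R) (s := w a) with h1 | h1 <;>
        rcases wt_cases (D := D) (R := R) (s := w b) with h2 | h2 <;> linarith
    · have ha := wt_le_half hx (h' a (by simp))
      have hb := wt_le_half hx (h' b (by simp))
      linarith
  · exact (sum_le_sum fun g _ => wt_le_self hDR).trans h

/-- If all bundles of a group are light and one of them has value below the cap, then every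
division of their union into as many parts has a part of value below `R`. -/
theorem exists_part_lt {ι : Type*} [DecidableEq ι] (hw : ∀ g, 0 ≤ w g) (hD : 0 ≤ D) (hDR : D ≤ R)
    (hx : D ≤ 2 * (R - x)) (X : ι → Finset G) (hX : ∀ i j, i ≠ j → Disjoint (X i) (X j))
    (S : Finset ι) {i : ι} (hi : i ∈ S) (hl : ∀ j ∈ S, Light w x D R (X j))
    (hown : ∑ g ∈ X i, w g < D) (p : G → Fin S.card) :
    ∃ j, ∑ g ∈ (S.biUnion X).filter fun g => p g = j, w g < R := by
  by_contra hcon
  push Not at hcon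
  have h1 : ∑ _j : Fin S.card, D ≤
      ∑ j, ∑ g ∈ (S.biUnion X).filter fun g => p g = j, wt D R (w g) :=
    sum_le_sum fun j _ => part_ge hw hD hDR (hcon j)
  rw [sum_fiberwise, sum_biUnion fun a _ b _ hab => hX a b hab] at h1
  have h2 : ∑ j ∈ S, ∑ g ∈ X j, wt D R (w g) < ∑ _j ∈ S, D :=
    sum_lt_sum (fun j hj => (hl j hj).wt_le hD hDR hx)
      ⟨i, hi, (sum_le_sum fun g _ => wt_le_self hDR).trans_lt hown⟩
  simp only [sum_const, card_univ, Fintype.card_fin] at h1 h2
  exact absurd (h1.trans_lt h2) (lt_irrefl _)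

end Pool.Agent.Lib.MP_7939ee_co
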